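import Mathlib

/-!
# Definitions: Frobenius numbers of K3 surfaces of finite height, Tate forms, norm forms
-/

set_option autoImplicit false

namespace Pool.Agent.W517.K3

/-- `α` is an eigenvalue of Frobenius on the transcendental part of `H²(X̄, ℚ_ℓ(1))`, for a K3
surface `X` of finite height over the field with `p ^ a` elements (after a finite extension of the
field): `α` generates the CM field `E`, and so do all its powers, all complex absolute values of
`α` are one, `p ^ a α` is an algebraic integer, and the `p`-adic embeddings `σ` of `E` with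
`‖σ α‖ > 1` belong to one place of `E`: they are conjugate over `ℚ_p`. -/
structure IsK3Frobenius (p a : ℕ) [Fact p.Prime] {E : Type} [Field E] [NumberField E] (α : E) :
    Prop where
  cm : NumberField.IsCMField E
  unitary : ∀ φ : E →+* ℂ, ‖φ α‖ = 1
  integral : IsIntegral ℤ ((p : E) ^ a * α)
  powers : ∀ s : ℕ, 0 < s → IntermediateField.adjoin ℚ {α ^ s} = ⊤
  place : ∀ σ τ : E →+* PadicAlgCl p, 1 < ‖σ α‖ → 1 < ‖τ α‖ →
    ∃ g : PadicAlgCl p ≃ₐ[ℚ_[p]] PadicAlgCl p, ∀ x, τ x = g (σ x)

/-- The degree over `ℚ_p` of the completion of `E` at the place where `α` has absolute value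
greater than one. -/
noncomputable def localDegree (p : ℕ) [Fact p.Prime] {E : Type} [Field E] (α : E) : ℕ :=
  Nat.card {σ : E →+* PadicAlgCl p // 1 < ‖σ α‖}

/-- All eigenvalues of `F` on `H` are roots of unity or conjugates of `α`, and `F` is
diagonalisable: `H` is spanned by eigenvectors of this kind. -/
def HasK3Eigenvalues {E Ω H : Type} [Field E] [Field Ω] [AddCommGroup H] [Module Ω H] (α : E)
    (F : H →ₗ[Ω] H) : Prop :=
  Submodule.span Ω {x : H | ∃ μ : Ω, F x = μ • x ∧
    ((∃ s : ℕ, 0 < s ∧ μ ^ s = 1) ∨ ∃ σ : E →+* Ω, σ α = μ)} = ⊤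

/-- `f` is a Tate form: it is fixed by a power of `F`. -/
def IsTateForm {Ω H ι : Type} [Field Ω] [AddCommGroup H] [Module Ω H] (F : H →ₗ[Ω] H)
    (f : MultilinearMap Ω (fun _ : ι => H) Ω) : Prop :=
  ∃ s : ℕ, 0 < s ∧ ∀ v, f (fun i => (F ^ s) (v i)) = f v

/-- `f` is a norm form: there is a proper CM subfield `K` of `E` such that `f` is the product of
linear forms `l i`, where the `l i` are eigenvectors of `F`, with eigenvalues `σ α`, where `σ` runs
exactly once through the embeddings of `E` which extend a given embedding `τ` of `K`. (So the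
product of the eigenvalues is `τ` of the norm of `α` to `K`.) -/
def IsNormForm {E Ω H ι : Type} [Field E] [NumberField E] [Field Ω] [AddCommGroup H] [Module Ω H]
    [Fintype ι] (α : E) (F : H →ₗ[Ω] H) (f : MultilinearMap Ω (fun _ : ι => H) Ω) : Prop :=
  ∃ K : IntermediateField ℚ E, K ≠ ⊤ ∧ NumberField.IsCMField K ∧
    ∃ (τ : K →+* Ω) (e : ι ≃ {σ : E →+* Ω // σ.comp (algebraMap K E) = τ})
      (l : ι → (H →ₗ[Ω] Ω)),
      (∀ i x, l i (F x) = (e i).1 α * l i x) ∧ ∀ v, f v = ∏ i, l i (v i)

/-- `ψ` is a product of Tate forms, in disjoint sets `B` of variables, each of which has at most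
two variables or is a norm form. -/
def IsProductOfBasicForms {E Ω H : Type} [Field E] [NumberField E] [Field Ω] [AddCommGroup H]
    [Module Ω H] (α : E) (F : H →ₗ[Ω] H) {n : ℕ}
    (ψ : MultilinearMap Ω (fun _ : Fin n => H) Ω) : Prop :=
  ∃ (P : Finpartition (Finset.univ : Finset (Fin n)))
    (f : ∀ B : Finset (Fin n), MultilinearMap Ω (fun _ : B => H) Ω),
    (∀ B ∈ P.parts, IsTateForm F (f B) ∧ (B.card ≤ 2 ∨ IsNormForm α F (f B))) ∧
    ∀ v, ψ v = ∏ B ∈ P.parts, f B (fun i => v i)

end Pool.Agent.W517.K3
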