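import Mathlib
import Pool.Agent.W517.K3.Defs

/-!
# Expansion of Tate forms in eigenforms
-/

set_option autoImplicit false

namespace Pool.Agent.W517.K3

open Module

noncomputable section

/-- roots of unity -/
def Tor {A : Type} [Field A] (z : A) : Prop := ∃ s : ℕ, 0 < s ∧ z ^ s = 1

theorem Tor.mul {A : Type} [Field A] {z w : A} (hz : Tor z) (hw : Tor w) : Tor (z * w) := by
  obtain ⟨s, hs, h⟩ := hz
  obtain ⟨t, ht, h'⟩ := hw
  refine ⟨s * t, Nat.mul_pos hs ht, ?_⟩
  rw [mul_pow, pow_mul, h, one_pow, one_mul, mul_comm s t, pow_mul, h', one_pow]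

theorem Tor.inv {A : Type} [Field A] {z : A} (hz : Tor z) : Tor z⁻¹ := by
  obtain ⟨s, hs, h⟩ := hz
  exact ⟨s, hs, by rw [inv_pow, h, inv_one]⟩

theorem Tor.one {A : Type} [Field A] : Tor (1 : A) := ⟨1, one_pos, one_pow 1⟩

theorem Tor.prod {A : Type} [Field A] {ι : Type} (S : Finset ι) (z : ι → A)
    (h : ∀ i ∈ S, Tor (z i)) : Tor (∏ i ∈ S, z i) := by
  classical
  induction S using Finset.induction_on with
  | empty =>
    rw [Finset.prod_empty]
    exact Tor.one
  | insert i S hi ih =>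
    rw [Finset.prod_insert hi]
    exact (h i (Finset.mem_insert_self i S)).mul
      (ih fun j hj => h j (Finset.mem_insert_of_mem hj))

variable {Ω H : Type} [Field Ω] [AddCommGroup H] [Module Ω H] (F : H →ₗ[Ω] H)

/-- a product of linear forms in separate variables -/
def prodForm {ι : Type} [Fintype ι] (l : ι → (H →ₗ[Ω] Ω)) :
    MultilinearMap Ω (fun _ : ι => H) Ω :=
  (MultilinearMap.mkPiAlgebra Ω ι Ω).compLinearMap l

theorem prodForm_apply {ι : Type} [Fintype ι] (l : ι → (H →ₗ[Ω] Ω)) (v : ι → H) :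
    prodForm l v = ∏ i, l i (v i) := by
  simp [prodForm]

theorem eigen_pow {l : H →ₗ[Ω] Ω} {μ : Ω} (h : ∀ x, l (F x) = μ * l x) (s : ℕ) (x : H) :
    l ((F ^ s) x) = μ ^ s * l x := by
  induction s generalizing x with
  | zero => simp
  | succ s ih =>
    rw [pow_succ, Module.End.mul_apply, ih, h, pow_succ]
    ring

/-- products of eigenforms with torsion eigenvalue are Tate forms -/
theorem prodForm_tate {ι : Type} [Fintype ι] (l : ι → (H →ₗ[Ω] Ω)) (μ : ι → Ω)
    (h : ∀ i x, l i (F x) = μ i * l i x) (ht : Tor (∏ i, μ i)) : IsTateForm F (prodForm l) := by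
  obtain ⟨s, hs, hp⟩ := ht
  refine ⟨s, hs, fun v => ?_⟩
  rw [prodForm_apply, prodForm_apply]
  have h1 : ∀ i, l i ((F ^ s) (v i)) = μ i ^ s * l i (v i) := fun i => eigen_pow F (h i) s _
  rw [Finset.prod_congr rfl fun i _ => h1 i, Finset.prod_mul_distrib, Finset.prod_pow, hp,
    one_mul]

/-- allowed eigenvalues -/
def Allowed {E : Type} [Field E] (α : E) (μ : Ω) : Prop := Tor μ ∨ ∃ σ : E →+* Ω, σ α = μ

/-- products of eigenforms with torsion total eigenvalue -/
def IsEigenProduct {E : Type} [Field E] (α : E) {n : ℕ}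
    (ψ : MultilinearMap Ω (fun _ : Fin n => H) Ω) : Prop :=
  ∃ (l : Fin n → (H →ₗ[Ω] Ω)) (μ : Fin n → Ω), (∀ i x, l i (F x) = μ i * l i x) ∧
    (∀ i, Allowed α (μ i)) ∧ Tor (∏ i, μ i) ∧ ψ = prodForm l

theorem eigen_expand {E : Type} [Field E] (α : E) [FiniteDimensional Ω H]
    (hF : HasK3Eigenvalues α F) {n : ℕ} (φ : MultilinearMap Ω (fun _ : Fin n => H) Ω)
    (hφ : IsTateForm F φ) :
    φ ∈ Submodule.span Ω {ψ | IsEigenProduct F α ψ} := by
  classical
  obtain ⟨s, hs, hφs⟩ := hφ
  let b := Basis.ofSpan (K := Ω) (V := H) (le_of_eq hF.symm)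
  have hb : ∀ k, ∃ μ : Ω, F (b k) = μ • b k ∧ Allowed α μ := by
    intro k
    have h1 : b k ∈ {x : H | ∃ μ : Ω, F x = μ • x ∧
        ((∃ s : ℕ, 0 < s ∧ μ ^ s = 1) ∨ ∃ σ : E →+* Ω, σ α = μ)} :=
      Basis.ofSpan_subset (le_of_eq hF.symm) ⟨k, rfl⟩
    exact h1
  choose μ hμ hallowed using hb
  have hfin := Module.Finite.finite_basis b
  have hft := Fintype.ofFinite ((linearIndepOn_empty Ω id).extend
    (Set.empty_subset {x : H | ∃ μ : Ω, F x = μ • x ∧
        ((∃ s : ℕ, 0 < s ∧ μ ^ s = 1) ∨ ∃ σ : E →+* Ω, σ α = μ)}))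
  have hcoord : ∀ k x, b.coord k (F x) = μ k * b.coord k x := by
    intro k x
    have h1 : (b.coord k).comp F = μ k • b.coord k := by
      refine b.ext fun j => ?_
      rw [LinearMap.comp_apply, hμ, map_smul, LinearMap.smul_apply, Basis.coord_apply,
        Basis.repr_self]
      by_cases hjk : j = k
      · subst hjk
        rfl
      · rw [Finsupp.single_eq_of_ne (Ne.symm hjk), smul_zero, smul_zero]
    exact LinearMap.congr_fun h1 x
  have hexp : φ = ∑ r : Fin n → _, φ (fun i => b (r i)) • prodForm (fun i => b.coord (r i)) := by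
    refine Basis.ext_multilinear (fun _ => b) fun v => ?_
    rw [MultilinearMap.sum_apply]
    rw [Finset.sum_eq_single v]
    · rw [MultilinearMap.smul_apply, prodForm_apply]
      have h1 : ∀ i, b.coord (v i) (b (v i)) = 1 := by
        intro i
        rw [Basis.coord_apply, Basis.repr_self, Finsupp.single_eq_same]
      rw [Finset.prod_congr rfl fun i _ => h1 i, Finset.prod_const_one, smul_eq_mul, mul_one]
    · intro r _ hr
      rw [MultilinearMap.smul_apply, prodForm_apply]
      obtain ⟨i, hi⟩ := Function.ne_iff.1 hr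
      rw [Finset.prod_eq_zero (Finset.mem_univ i), smul_zero]
      rw [Basis.coord_apply, Basis.repr_self, Finsupp.single_eq_of_ne hi]
    · intro h
      exact absurd (Finset.mem_univ v) h
  rw [hexp]
  refine Submodule.sum_mem _ fun r _ => ?_
  by_cases h0 : φ (fun i => b (r i)) = 0
  · rw [h0, zero_smul]
    exact Submodule.zero_mem _
  · refine Submodule.smul_mem _ _ (Submodule.subset_span ?_)
    refine ⟨fun i => b.coord (r i), fun i => μ (r i), fun i x => hcoord _ _,
      fun i => hallowed _, ⟨s, hs, ?_⟩, rfl⟩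
    have hFs : ∀ k, (F ^ s) (b k) = μ k ^ s • b k := by
      intro k
      clear hφs hs
      induction s with
      | zero => simp
      | succ s ih =>
        rw [pow_succ', Module.End.mul_apply, ih, map_smul, hμ, smul_smul, pow_succ]
    have h1 := hφs (fun i => b (r i))
    simp only [hFs] at h1
    rw [MultilinearMap.map_smul_univ, smul_eq_mul] at h1
    have h2 := mul_right_cancel₀ h0 (h1.trans (one_mul _).symm)
    rw [← Finset.prod_pow]
    exact h2

end

end Pool.Agent.W517.K3
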