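import Mathlib

/-!
# A circulant lemma and a Sylow lemma
-/

set_option autoImplicit false

namespace Pool.Agent.W517.K3

open Finset Polynomial

theorem const_of_zeta {ℓ : ℕ} (hℓ : ℓ.Prime) {ζ : ℂ} (hζ : IsPrimitiveRoot ζ ℓ) (w : ℕ → ℤ)
    (h : ∑ i ∈ Finset.range ℓ, (w i : ℂ) * ζ ^ i = 0) : ∀ i < ℓ, w i = w 0 := by
  set P : ℚ[X] := ∑ i ∈ Finset.range ℓ, C (w i : ℚ) * X ^ i with hP
  have hcoeff : ∀ i, P.coeff i = if i < ℓ then (w i : ℚ) else 0 := by
    intro i
    rw [hP, Polynomial.finsetSum_coeff]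
    simp only [coeff_C_mul, coeff_X_pow]
    by_cases hi : i < ℓ
    · rw [if_pos hi, Finset.sum_eq_single i]
      · simp
      · intro b _ hb
        simp [Ne.symm hb]
      · intro hcon
        exact absurd (Finset.mem_range.2 hi) hcon
    · rw [if_neg hi]
      refine Finset.sum_eq_zero fun b hb => ?_
      have : i ≠ b := by
        intro hib
        rw [Finset.mem_range] at hb
        omega
      simp [this]
  have hzero : aeval ζ P = 0 := by
    rw [hP, map_sum]
    rw [← h]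
    refine Finset.sum_congr rfl fun i _ => ?_
    simp
  have hdvd : cyclotomic ℓ ℚ ∣ P := by
    rw [cyclotomic_eq_minpoly_rat hζ hℓ.pos]
    exact minpoly.dvd ℚ ζ hzero
  obtain ⟨Q, hQ⟩ := hdvd
  have : Fact ℓ.Prime := ⟨hℓ⟩
  have hcyc : ∀ i, (cyclotomic ℓ ℚ).coeff i = if i < ℓ then 1 else 0 := by
    intro i
    rw [cyclotomic_prime, Polynomial.finsetSum_coeff]
    simp only [coeff_X_pow]
    by_cases hi : i < ℓ
    · rw [if_pos hi, Finset.sum_eq_single i]
      · simp
      · intro b _ hb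
        simp [Ne.symm hb]
      · intro hcon
        exact absurd (Finset.mem_range.2 hi) hcon
    · rw [if_neg hi]
      refine Finset.sum_eq_zero fun b hb => ?_
      have : i ≠ b := by
        intro hib
        rw [Finset.mem_range] at hb
        omega
      simp [this]
  have hdegc : (cyclotomic ℓ ℚ).natDegree = ℓ - 1 := by
    rw [natDegree_cyclotomic, Nat.totient_prime hℓ]
  have hdegP : P.natDegree ≤ ℓ - 1 := by
    rw [natDegree_le_iff_coeff_eq_zero]
    intro N hN
    rw [hcoeff, if_neg (by have := hℓ.pos; omega)]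
  have hQC : ∃ a : ℚ, Q = C a := by
    by_cases hQ0 : Q = 0
    · exact ⟨0, by rw [hQ0, map_zero]⟩
    · have h1 := natDegree_mul (cyclotomic_ne_zero ℓ ℚ) hQ0
      rw [← hQ, hdegc] at h1
      exact ⟨Q.coeff 0, eq_C_of_natDegree_eq_zero (by omega)⟩
  obtain ⟨a, rfl⟩ := hQC
  have hall : ∀ i < ℓ, (w i : ℚ) = a := by
    intro i hi
    have h1 := hcoeff i
    rw [if_pos hi, hQ, coeff_mul_C, hcyc, if_pos hi, one_mul] at h1
    exact h1.symm
  intro i hi
  have h1 := hall i hi
  rw [← hall 0 hℓ.pos] at h1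
  exact_mod_cast h1

theorem sum_shift {M : Type*} [AddCommMonoid M] {ℓ : ℕ} (f : ℕ → M) (hf : ∀ i, f (i + ℓ) = f i)
    (j : ℕ) : ∑ i ∈ Finset.range ℓ, f (i + j) = ∑ i ∈ Finset.range ℓ, f i := by
  induction j with
  | zero => simp
  | succ j ih =>
    rw [← ih]
    have h1 : ∑ i ∈ Finset.range (ℓ + 1), f (i + j) =
        ∑ i ∈ Finset.range ℓ, f (i + 1 + j) + f (0 + j) := Finset.sum_range_succ' _ _
    have h2 : ∑ i ∈ Finset.range (ℓ + 1), f (i + j) =
        ∑ i ∈ Finset.range ℓ, f (i + j) + f (ℓ + j) := Finset.sum_range_succ _ _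
    rcases Nat.eq_zero_or_pos ℓ with h0 | h0
    · subst h0; simp
    · -- cancel by decomposing the ranges
      obtain ⟨m, rfl⟩ : ∃ m, ℓ = m + 1 := ⟨ℓ - 1, by omega⟩
      rw [Finset.sum_range_succ (fun i => f (i + (j + 1))), Finset.sum_range_succ' (fun i => f (i + j))]
      congr 1
      · refine Finset.sum_congr rfl fun i _ => ?_
        congr 1
        omega
      · have := hf j
        rw [zero_add, ← this]
        congr 1
        omega

theorem circ {ℓ : ℕ} (hℓ : ℓ.Prime) (a w : ℕ → ℤ) (hw : ∀ i, w (i + ℓ) = w i)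
    (h : ∀ j, ∑ i ∈ Finset.range ℓ, a i * w (i + j) = 0)
    (ha : ∑ i ∈ Finset.range ℓ, a i = 0) (i₀ : ℕ) (hi₀ : i₀ < ℓ) (ha0 : a i₀ ≠ 0) :
    ∀ i < ℓ, w i = w 0 := by
  have hℓ0 : ℓ ≠ 0 := hℓ.ne_zero
  set ζ : ℂ := Complex.exp (2 * Real.pi * Complex.I / ℓ) with hζdef
  have hζ : IsPrimitiveRoot ζ ℓ := Complex.isPrimitiveRoot_exp ℓ hℓ0
  have hζ0 : ζ ≠ 0 := hζ.ne_zero hℓ0
  set W : ℂ := ∑ j ∈ Finset.range ℓ, (w j : ℂ) * ζ ^ j with hW
  have h1 : ∀ i, ∑ j ∈ Finset.range ℓ, ζ ^ j * (w (i + j) : ℂ) = (ζ⁻¹) ^ i * W := by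
    intro i
    have h2 := sum_shift (ℓ := ℓ) (fun j => (w j : ℂ) * ζ ^ j) (fun j => by
      rw [hw, pow_add, hζ.pow_eq_one, mul_one]) i
    rw [hW, ← h2, Finset.mul_sum]
    refine Finset.sum_congr rfl fun j _ => ?_
    rw [add_comm j i, pow_add, inv_pow]
    field_simp
  have h2 : (∑ i ∈ Finset.range ℓ, (a i : ℂ) * (ζ⁻¹) ^ i) * W = 0 := by
    have h3 : ∑ j ∈ Finset.range ℓ, ζ ^ j * ((∑ i ∈ Finset.range ℓ, a i * w (i + j) : ℤ) : ℂ) = 0 := by
      refine Finset.sum_eq_zero fun j _ => ?_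
      rw [h j]
      simp
    rw [← h3]
    push_cast
    simp only [Finset.mul_sum]
    rw [Finset.sum_comm, Finset.sum_mul]
    refine Finset.sum_congr rfl fun i _ => ?_
    rw [mul_assoc, ← h1 i, Finset.mul_sum]
    refine Finset.sum_congr rfl fun j _ => ?_
    ring
  rcases mul_eq_zero.1 h2 with h3 | h3
  · exfalso
    have h4 := const_of_zeta hℓ hζ.inv a h3
    have h5 : ∑ i ∈ Finset.range ℓ, a i = ℓ * a 0 := by
      rw [Finset.sum_congr rfl fun i hi => h4 i (Finset.mem_range.1 hi)]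
      simp
    rw [ha] at h5
    have h6 : a 0 = 0 := by
      have h7 : (ℓ : ℤ) ≠ 0 := by exact_mod_cast hℓ0
      exact (mul_eq_zero.1 h5.symm).resolve_left h7
    exact ha0 (by rw [h4 i₀ hi₀, h6])
  · exact const_of_zeta hℓ hζ w h3

/-- orbits of Sylow subgroups are as divisible as orbits of the group -/
theorem dvd_card_orbit {H Y : Type*} [Group H] [Finite H] [MulAction H Y] (p k : ℕ)
    [hp : Fact p.Prime] (Q : Sylow p H) (y : Y)
    (h : p ^ k ∣ Nat.card (MulAction.orbit H y)) :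
    p ^ k ∣ Nat.card (MulAction.orbit Q y) := by
  have e1 : Nat.card (MulAction.orbit H y) * Nat.card (MulAction.stabilizer H y) = Nat.card H := by
    rw [← Nat.card_prod]
    exact Nat.card_congr (MulAction.orbitProdStabilizerEquivGroup H y)
  have e2 : Nat.card (MulAction.orbit Q y) * Nat.card (MulAction.stabilizer Q y) = Nat.card Q := by
    rw [← Nat.card_prod]
    exact Nat.card_congr (MulAction.orbitProdStabilizerEquivGroup Q y)
  have e3 : Nat.card (MulAction.stabilizer Q y) ∣ Nat.card (MulAction.stabilizer H y) := by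
    have h1 : (MulAction.stabilizer Q y).map (Q : Subgroup H).subtype ≤ MulAction.stabilizer H y := by
      rintro _ ⟨g, hg, rfl⟩
      exact hg
    have h2 := Subgroup.card_dvd_of_le h1
    rwa [Subgroup.card_map_of_injective (Subgroup.subtype_injective _)] at h2
  have e4 : Nat.card Q * (Q : Subgroup H).index = Nat.card H := Subgroup.card_mul_index _
  have e5 : ¬ p ∣ (Q : Subgroup H).index := Sylow.not_dvd_index Q
  obtain ⟨t, ht⟩ := e3
  have hpos : 0 < Nat.card (MulAction.stabilizer Q y) := Nat.card_pos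
  have e6 : Nat.card (MulAction.orbit Q y) * (Q : Subgroup H).index =
      Nat.card (MulAction.orbit H y) * t := by
    apply Nat.eq_of_mul_eq_mul_right hpos
    calc Nat.card (MulAction.orbit Q y) * (Q : Subgroup H).index *
          Nat.card (MulAction.stabilizer Q y)
        = Nat.card (MulAction.orbit Q y) * Nat.card (MulAction.stabilizer Q y) *
          (Q : Subgroup H).index := by ring
      _ = Nat.card (MulAction.orbit H y) * (Nat.card (MulAction.stabilizer Q y) * t) := by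
          rw [e2, e4, ← e1, ht]
      _ = _ := by ring
  have e7 : p ^ k ∣ Nat.card (MulAction.orbit Q y) * (Q : Subgroup H).index := by
    rw [e6]
    exact Dvd.dvd.mul_right h t
  have e8 : Nat.Coprime (p ^ k) (Q : Subgroup H).index :=
    Nat.Coprime.pow_left k ((Nat.Prime.coprime_iff_not_dvd hp.out).2 e5)
  exact e8.dvd_of_dvd_mul_right e7

end Pool.Agent.W517.K3
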