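import Mathlib

/-!
# Relations between signed translates

A finite group `G` acts transitively on a finite set `X` with an involution `c` that commutes with
`G`, `v` is an odd function with values in `{1, 0, -1}`, such that the stabiliser of `v` is
transitive on the set of points where `v` is `1`, and the translates of `v` separate points. We
study the odd integral functions `n` which are orthogonal to all translates of `v`.
-/

set_option autoImplicit false
set_option linter.unusedSectionVars false
set_option linter.unusedSimpArgs false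

namespace Pool.Agent.W517.K3

open Finset

/-- The standing assumptions. -/
structure Sgn (G : Type*) {X : Type*} [Group G] [MulAction G X] (c : X → X) (v : X → ℤ) :
    Prop where
  cc : ∀ x, c (c x) = x
  cg : ∀ (g : G) (x : X), c (g • x) = g • c x
  odd : ∀ x, v (c x) = - v x
  val : ∀ x, v x = 1 ∨ v x = 0 ∨ v x = -1
  trans : ∀ x y : X, ∃ g : G, g • x = y
  place : ∀ x y, v x = 1 → v y = 1 → ∃ δ : G, δ • x = y ∧ ∀ z, v (δ • z) = v z
  sep : ∀ x y, (∀ g : G, v (g • x) = v (g • y)) → x = y
  ex : ∃ x, v x = 1

/-- Odd functions which are orthogonal to all translates of `v`. -/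
def Rel (G : Type*) {X : Type*} [Group G] [MulAction G X] [Fintype X] (c : X → X) (v : X → ℤ)
    (n : X → ℤ) : Prop :=
  (∀ x, n (c x) = - n x) ∧ ∀ g : G, ∑ x, n x * v (g • x) = 0

variable {G X : Type*} [Group G] [MulAction G X] [Fintype X] {c : X → X} {v : X → ℤ}

theorem Rel.zero : Rel G c v (fun _ => 0) := by
  refine ⟨fun x => by simp, fun g => by simp⟩

theorem Rel.add {n n' : X → ℤ} (h : Rel G c v n) (h' : Rel G c v n') :
    Rel G c v (fun x => n x + n' x) := by
  refine ⟨fun x => ?_, fun g => ?_⟩
  · have h1 := h.1 x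
    have h2 := h'.1 x
    simp only
    omega
  · simp only [add_mul, Finset.sum_add_distrib, h.2 g, h'.2 g, add_zero]

theorem Rel.neg {n : X → ℤ} (h : Rel G c v n) : Rel G c v (fun x => - n x) := by
  refine ⟨fun x => ?_, fun g => ?_⟩
  · have h1 := h.1 x
    simp only
    omega
  · simp only [neg_mul, Finset.sum_neg_distrib, h.2 g, neg_zero]

theorem Rel.sub {n n' : X → ℤ} (h : Rel G c v n) (h' : Rel G c v n') :
    Rel G c v (fun x => n x - n' x) := by
  refine ⟨fun x => ?_, fun g => ?_⟩
  · have h1 := h.1 x
    have h2 := h'.1 x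
    simp only
    omega
  · simp only [sub_mul, Finset.sum_sub_distrib, h.2 g, h'.2 g, sub_zero]

section
variable (hS : Sgn G c v)

include hS in
theorem Rel.translate {n : X → ℤ} (h : Rel G c v n) (g : G) : Rel G c v (fun x => n (g • x)) := by
  refine ⟨fun x => ?_, fun k => ?_⟩
  · simp only
    rw [← hS.cg, h.1]
  · have h1 := h.2 (k * g⁻¹)
    rw [← h1]
    refine Fintype.sum_equiv (MulAction.toPerm g) _ _ fun x => ?_
    simp only [MulAction.toPerm_apply]
    rw [smul_smul, inv_mul_cancel_right]

include hS in
theorem c_inj {x y : X} (h : c x = c y) : x = y := by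
  rw [← hS.cc x, h, hS.cc]

include hS in
theorem c_ne (x : X) : c x ≠ x := by
  intro h
  obtain ⟨y, hy⟩ := hS.ex
  obtain ⟨g, hg⟩ := hS.trans x y
  have h1 : c y = y := by rw [← hg, hS.cg, h]
  have h2 := hS.odd y
  rw [h1, hy] at h2
  omega

/-- sums against odd functions -/
theorem sum_odd [DecidableEq X] {f : X → ℤ} (hf : ∀ x, f (c x) = - f x) (hc : ∀ x, c (c x) = x)
    (hv : ∀ x, v (c x) = - v x) (hval : ∀ x, v x = 1 ∨ v x = 0 ∨ v x = -1) :
    ∑ x, f x * v x = 2 * ∑ x ∈ univ.filter (fun x => v x = 1), f x := by
  have h1 : ∀ x, f x * v x = (if v x = 1 then f x else 0) + (if v x = -1 then - f x else 0) := by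
    intro x
    rcases hval x with h | h | h <;> simp [h]
  rw [Finset.sum_congr rfl fun x _ => h1 x, Finset.sum_add_distrib, two_mul]
  congr 1
  · rw [Finset.sum_filter]
  · rw [Finset.sum_filter]
    refine Fintype.sum_equiv ⟨c, c, hc, hc⟩ _ _ fun x => ?_
    change _ = if v (c x) = 1 then f (c x) else 0
    rw [hv, hf]
    congr 1
    apply propext
    constructor <;> intro h <;> omega

include hS in
theorem rel_sum [DecidableEq X] {n : X → ℤ} (h : Rel G c v n) (g : G) :
    ∑ x ∈ univ.filter (fun x => v x = 1), n (g • x) = 0 := by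
  have h1 := (h.translate hS g).2 1
  simp only [one_smul] at h1
  have h2 := sum_odd (f := fun x => n (g • x)) (h.translate hS g).1 hS.cc hS.odd hS.val
  rw [h1] at h2
  omega

/-- the class of a point: the points with the same value of all relations -/
def cls (G : Type*) {X : Type*} [Group G] [MulAction G X] [Fintype X] (c : X → X) (v : X → ℤ)
    (x : X) : Set X :=
  {y | ∀ n : X → ℤ, Rel G c v n → n x = n y}

open Classical in
/-- the sum of `v` over the class -/
noncomputable def csum (G : Type*) {X : Type*} [Group G] [MulAction G X] [Fintype X] (c : X → X)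
    (v : X → ℤ) (x : X) : ℤ :=
  ∑ y ∈ univ.filter (fun y => y ∈ cls G c v x), v y

include hS in
/-- if relations vanish at the translates of one point, they vanish -/
theorem zero_of_orbit {n : X → ℤ} (x : X) (h : ∀ g : G, n (g • x) = 0) : n = fun _ => 0 := by
  funext y
  obtain ⟨g, rfl⟩ := hS.trans x y
  exact h g

include hS in
/-- generic lemma: one-dimensional space of relations with constant absolute value -/
theorem csum_of_const {n₀ : X → ℤ} (h₀ : Rel G c v n₀) (a : ℤ) (ha : a ≠ 0)
    (h1 : ∀ x, n₀ x = a ∨ n₀ x = -a)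
    (h2 : ∀ n : X → ℤ, Rel G c v n → ∀ x y, n₀ x = n₀ y → n x = n y) (x : X) :
    csum G c v x = 0 := by
  classical
  have hcls : ∀ y, y ∈ cls G c v x ↔ n₀ y = n₀ x := by
    intro y
    constructor
    · intro h
      exact (h n₀ h₀).symm
    · intro h n hn
      exact h2 n hn x y h.symm
  have h3 : csum G c v x = ∑ y ∈ univ.filter (fun y => n₀ y = n₀ x), v y := by
    unfold csum
    refine Finset.sum_congr ?_ fun _ _ => rfl
    ext y
    simp only [mem_filter, mem_univ, true_and]
    exact hcls y
  rw [h3]
  have h4 : ∑ y, n₀ y * v y = 0 := by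
    have := h₀.2 1
    simpa using this
  have hb : n₀ x ≠ 0 := by
    rcases h1 x with h | h <;> rw [h] <;> omega
  have h5 : ∑ y, n₀ y * v y = 2 * (n₀ x * ∑ y ∈ univ.filter (fun y => n₀ y = n₀ x), v y) := by
    have h6 : ∀ y, n₀ y * v y = (if n₀ y = n₀ x then n₀ x * v y else 0) +
        (if n₀ y = - n₀ x then - (n₀ x) * v y else 0) := by
      intro y
      have h7 : n₀ y = n₀ x ∨ n₀ y = - n₀ x := by
        rcases h1 x with h | h <;> rcases h1 y with h' | h' <;> rw [h, h'] <;> simp
      rcases h7 with h | h
      · rw [if_pos h, if_neg (by omega), h, add_zero]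
      · rw [if_neg (by omega), if_pos h, h, zero_add]
    rw [Finset.sum_congr rfl fun y _ => h6 y, Finset.sum_add_distrib, two_mul]
    congr 1
    · rw [Finset.mul_sum, Finset.sum_filter]
    · rw [Finset.mul_sum, Finset.sum_filter]
      refine Fintype.sum_equiv ⟨c, c, hS.cc, hS.cc⟩ _ _ fun y => ?_
      change _ = if n₀ (c y) = n₀ x then n₀ x * v (c y) else 0
      rw [h₀.1, hS.odd]
      by_cases h : n₀ y = - n₀ x
      · rw [if_pos h, if_pos (by omega)]
        ring
      · rw [if_neg h, if_neg (by omega)]
  rw [h4] at h5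
  have h6 : n₀ x * ∑ y ∈ univ.filter (fun y => n₀ y = n₀ x), v y = 0 := by omega
  exact (mul_eq_zero.1 h6).resolve_left hb

include hS in
/-- at most two points with `v = 1` -/
theorem core_le_two [DecidableEq X] (hm : (univ.filter (fun x => v x = 1)).card ≤ 2)
    {n₀ : X → ℤ} (h₀ : Rel G c v n₀) (hn₀ : n₀ ≠ fun _ => 0) (x : X) : csum G c v x = 0 := by
  classical
  obtain ⟨a, ha⟩ := hS.ex
  have haS : a ∈ univ.filter (fun x => v x = 1) := by simp [ha]
  have hpos : 0 < (univ.filter (fun x => v x = 1)).card := Finset.card_pos.2 ⟨a, haS⟩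
  have hcase : (univ.filter (fun x => v x = 1)).card = 1 ∨
      (univ.filter (fun x => v x = 1)).card = 2 := by omega
  rcases hcase with h1 | h1
  · exfalso
    obtain ⟨b, hb⟩ := Finset.card_eq_one.1 h1
    rw [hb, Finset.mem_singleton] at haS
    apply hn₀
    refine zero_of_orbit hS a fun g => ?_
    have h2 := rel_sum hS h₀ g
    rw [hb, Finset.sum_singleton, ← haS] at h2
    exact h2
  · obtain ⟨a, b, hab, hS2⟩ := Finset.card_eq_two.1 h1
    have hva : v a = 1 := by
      have : a ∈ univ.filter (fun x => v x = 1) := by rw [hS2]; simp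
      simpa using this
    have hvb : v b = 1 := by
      have : b ∈ univ.filter (fun x => v x = 1) := by rw [hS2]; simp
      simpa using this
    have hiff : ∀ n : X → ℤ, Rel G c v n → n a = n (c b) ∧ n b = n (c a) := by
      intro n hn
      have h2 := rel_sum hS hn 1
      rw [hS2, Finset.sum_pair hab, one_smul, one_smul] at h2
      have h3 := hn.1 a
      have h4 := hn.1 b
      constructor <;> omega
    have hA : ∀ x, a ∈ cls G c v x ↔ c b ∈ cls G c v x := by
      intro x
      constructor
      · intro h n hn
        rw [h n hn, (hiff n hn).1]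
      · intro h n hn
        rw [h n hn, (hiff n hn).1]
    have hB : ∀ x, b ∈ cls G c v x ↔ c a ∈ cls G c v x := by
      intro x
      constructor
      · intro h n hn
        rw [h n hn, (hiff n hn).2]
      · intro h n hn
        rw [h n hn, (hiff n hn).2]
    have hval : ∀ y, v y = (if y = a then 1 else 0) + (if y = b then 1 else 0) -
        (if y = c a then 1 else 0) - (if y = c b then 1 else 0) := by
      intro y
      have hmem : v y = 1 ↔ (y = a ∨ y = b) := by
        have : y ∈ univ.filter (fun x => v x = 1) ↔ y ∈ ({a, b} : Finset X) := by rw [hS2]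
        simpa using this
      have hmem' : v y = -1 ↔ (y = c a ∨ y = c b) := by
        have h3 : v (c y) = 1 ↔ (c y = a ∨ c y = b) := by
          have : c y ∈ univ.filter (fun x => v x = 1) ↔ c y ∈ ({a, b} : Finset X) := by rw [hS2]
          simpa using this
        rw [hS.odd] at h3
        have h4 : ∀ z, c y = z ↔ y = c z := by
          intro z
          constructor
          · intro h; rw [← h, hS.cc]
          · intro h; rw [h, hS.cc]
        rw [h4, h4] at h3
        rw [← h3]
        constructor <;> intro h <;> omega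
      have hcab : c a ≠ c b := fun h => hab (c_inj hS h)
      have h5 : v (c a) = -1 := by rw [hS.odd, hva]
      have h6 : v (c b) = -1 := by rw [hS.odd, hvb]
      have ne1 : a ≠ c a := fun h => by rw [← h] at h5; omega
      have ne2 : a ≠ c b := fun h => by rw [← h] at h6; omega
      have ne3 : b ≠ c a := fun h => by rw [← h] at h5; omega
      have ne4 : b ≠ c b := fun h => by rw [← h] at h6; omega
      by_cases e1 : y = a
      · subst e1; simp [hva, hab, ne1, ne2]
      by_cases e2 : y = b
      · subst e2; simp [hvb, hab.symm, ne3, ne4]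
      by_cases e3 : y = c a
      · subst e3; simp [h5, ne1.symm, ne3.symm, hcab]
      by_cases e4 : y = c b
      · subst e4; simp [h6, ne2.symm, ne4.symm, hcab.symm]
      have h7 : v y ≠ 1 := fun h => by
        rcases hmem.1 h with h | h
        · exact e1 h
        · exact e2 h
      have h8 : v y ≠ -1 := fun h => by
        rcases hmem'.1 h with h | h
        · exact e3 h
        · exact e4 h
      have h9 : v y = 0 := by
        rcases hS.val y with h | h | h
        · exact absurd h h7
        · exact h
        · exact absurd h h8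
      simp [h9, e1, e2, e3, e4]
    unfold csum
    rw [Finset.sum_congr rfl fun y _ => hval y]
    rw [Finset.sum_sub_distrib, Finset.sum_sub_distrib, Finset.sum_add_distrib]
    simp only [Finset.sum_ite_eq', mem_filter, mem_univ, true_and]
    by_cases p1 : a ∈ cls G c v x <;> by_cases p2 : b ∈ cls G c v x
    · simp [p1, p2, (hA x).1 p1, (hB x).1 p2]
    · simp [p1, p2, (hA x).1 p1, mt (hB x).2 p2]
    · simp [p1, p2, mt (hA x).2 p1, (hB x).1 p2]
    · simp [p1, p2, mt (hA x).2 p1, mt (hB x).2 p2]

end

end Pool.Agent.W517.K3
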