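import Mathlib
import Pool.Agent.W517.K3.Core

/-!
# Relations between signed translates: the case of eight points
-/

set_option autoImplicit false
set_option linter.unusedSectionVars false
set_option linter.unusedSimpArgs false

namespace Pool.Agent.W517.K3

open Finset

variable {G X : Type*} [Group G] [MulAction G X] [Fintype X] {c : X → X} {v : X → ℤ}
variable (hS : Sgn G c v)

include hS in
/-- if all relations have constant absolute value -/
theorem core_of_abs (habs : ∀ n : X → ℤ, Rel G c v n → ∀ x y, n x = n y ∨ n x = - n y)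
    {n₀ : X → ℤ} (h₀ : Rel G c v n₀) (hn₀ : n₀ ≠ fun _ => 0) (x : X) : csum G c v x = 0 := by
  obtain ⟨z, hz⟩ : ∃ z, n₀ z ≠ 0 := by
    by_contra hcon
    push Not at hcon
    exact hn₀ (funext hcon)
  refine csum_of_const hS h₀ (n₀ z) hz (fun x => habs n₀ h₀ x z) ?_ x
  intro n hn x y hxy
  have h1 := habs n hn x y
  have h2 := habs _ (h₀.add hn) x y
  have h3 := habs n₀ h₀ x z
  omega

include hS in
/-- if there are no points with `v = 0`, sums of even functions -/
theorem sum_even [DecidableEq X] (hne : ∀ x, v x ≠ 0) {f : X → ℤ} (hf : ∀ x, f (c x) = f x) :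
    ∑ x, f x = 2 * ∑ x ∈ univ.filter (fun x => v x = 1), f x := by
  have h1 : ∀ x, f x = (if v x = 1 then f x else 0) + (if v x = -1 then f x else 0) := by
    intro x
    rcases hS.val x with h | h | h
    · simp [h]
    · exact absurd h (hne x)
    · simp [h]
  rw [Finset.sum_congr rfl fun x _ => h1 x, Finset.sum_add_distrib, two_mul]
  congr 1
  · rw [Finset.sum_filter]
  · rw [Finset.sum_filter]
    refine Fintype.sum_equiv ⟨c, c, hS.cc, hS.cc⟩ _ _ fun x => ?_
    change _ = if v (c x) = 1 then f (c x) else 0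
    rw [hS.odd, hf]
    congr 1
    apply propext
    constructor <;> intro h <;> omega

include hS in
theorem rel_sum' [DecidableEq X] (hne : ∀ x, v x ≠ 0) {n : X → ℤ} (h : Rel G c v n) (g : G) :
    ∑ x ∈ univ.filter (fun x => v x = 1), n x * v (g • x) = 0 := by
  have h1 := h.2 g
  rw [sum_even hS hne (f := fun x => n x * v (g • x))] at h1
  · omega
  · intro x
    rw [h.1, ← hS.cg, hS.odd]
    ring

theorem card_four {T : Type*} [DecidableEq T] {s : Finset T} (h : s.card = 4) :
    ∃ a b e f, a ≠ b ∧ a ≠ e ∧ a ≠ f ∧ b ≠ e ∧ b ≠ f ∧ e ≠ f ∧ s = {a, b, e, f} := by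
  obtain ⟨a, t, hat, rfl, ht⟩ := Finset.card_eq_succ.1 h
  obtain ⟨b, e, f, h1, h2, h3, rfl⟩ := Finset.card_eq_three.1 ht
  simp only [mem_insert, mem_singleton, not_or] at hat
  exact ⟨a, b, e, f, hat.1, hat.2.1, hat.2.2, h1, h2, h3, rfl⟩

include hS in
/-- one exceptional sign: the relations vanish -/
theorem zero_of_one [DecidableEq X] (hne : ∀ x, v x ≠ 0)
    (g : G) (t : X) (ht : v t = 1) (h : ∀ s, v s = 1 → s ≠ t → v (g • s) = - v (g • t))
    {n : X → ℤ} (hn : Rel G c v n) : n = fun _ => 0 := by
  -- first: `n t = 0` for such `t`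
  have key : ∀ (g : G) (t : X), v t = 1 → (∀ s, v s = 1 → s ≠ t → v (g • s) = - v (g • t)) →
      n t = 0 := by
    intro g t ht h
    have h1 := rel_sum' hS hne hn g
    have h2 := rel_sum hS hn 1
    simp only [one_smul] at h2
    have htS : t ∈ univ.filter (fun x => v x = 1) := by simp [ht]
    rw [← Finset.add_sum_erase _ _ htS] at h1 h2
    have h3 : ∑ x ∈ (univ.filter (fun x => v x = 1)).erase t, n x * v (g • x) =
        - v (g • t) * ∑ x ∈ (univ.filter (fun x => v x = 1)).erase t, n x := by
      rw [Finset.mul_sum]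
      refine Finset.sum_congr rfl fun s hs => ?_
      rw [Finset.mem_erase, Finset.mem_filter] at hs
      rw [h s hs.2.2 hs.1]
      ring
    rw [h3] at h1
    have h4 : ∑ x ∈ (univ.filter (fun x => v x = 1)).erase t, n x = - n t := by omega
    rw [h4] at h1
    have h5 : v (g • t) ≠ 0 := hne _
    have h6 : v (g • t) * n t = 0 := by linarith
    exact (mul_eq_zero.1 h6).resolve_left h5
  have hall : ∀ s, v s = 1 → n s = 0 := by
    intro s hs
    obtain ⟨δ, hδ, hδv⟩ := hS.place s t hs ht
    refine key (g * δ) s hs fun u hu hus => ?_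
    rw [mul_smul, mul_smul, hδ]
    refine h _ ?_ ?_
    · rw [hδv, hu]
    · intro hcon
      apply hus
      rw [← hδ] at hcon
      exact smul_left_cancel δ hcon
  funext x
  rcases hS.val x with h1 | h1 | h1
  · exact hall x h1
  · exact absurd h1 (hne x)
  · have h2 : n (c x) = 0 := hall _ (by rw [hS.odd, h1]; norm_num)
    rw [hn.1] at h2
    omega

set_option maxHeartbeats 2000000 in
include hS in
/-- eight points, four of them with `v = 1` -/
theorem core_eight [DecidableEq X] (hX : Fintype.card X = 8)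
    (hm : (univ.filter (fun x => v x = 1)).card = 4)
    {n₀ : X → ℤ} (h₀ : Rel G c v n₀) (hn₀ : n₀ ≠ fun _ => 0) (x : X) : csum G c v x = 0 := by
  have hne : ∀ x, v x ≠ 0 := by
    intro x hx
    have h1 : (univ.filter (fun x => v x = -1)).card = 4 := by
      rw [← hm]
      refine Finset.card_bij (fun x _ => c x) ?_ ?_ ?_
      · intro y hy
        simp only [mem_filter, mem_univ, true_and] at hy ⊢
        rw [hS.odd, hy]
        norm_num
      · intro y _ z _ h
        exact c_inj hS h
      · intro y hy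
        refine ⟨c y, ?_, hS.cc y⟩
        simp only [mem_filter, mem_univ, true_and] at hy ⊢
        rw [hS.odd, hy]
    have h2 : Disjoint (univ.filter (fun x => v x = 1)) (univ.filter (fun x => v x = -1)) := by
      rw [Finset.disjoint_left]
      intro y hy hy'
      simp only [mem_filter, mem_univ, true_and] at hy hy'
      omega
    have h3 : (univ.filter (fun x => v x = 1) ∪ univ.filter (fun x => v x = -1)).card = 8 := by
      rw [Finset.card_union_of_disjoint h2, hm, h1]
    have h4 : univ.filter (fun x => v x = 1) ∪ univ.filter (fun x => v x = -1) = univ :=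
      Finset.eq_univ_of_card _ (by rw [h3, hX])
    have h5 : x ∈ univ.filter (fun x => v x = 1) ∪ univ.filter (fun x => v x = -1) := by
      rw [h4]; exact mem_univ x
    simp only [mem_union, mem_filter, mem_univ, true_and] at h5
    omega
  refine core_of_abs hS ?_ h₀ hn₀ x
  intro n hn
  obtain ⟨a, b, e, f, hab, hae, haf, hbe, hbf, hef, hset⟩ := card_four hm
  have hmem : ∀ y, v y = 1 ↔ (y = a ∨ y = b ∨ y = e ∨ y = f) := by
    intro y
    have : y ∈ univ.filter (fun x => v x = 1) ↔ y ∈ ({a, b, e, f} : Finset X) := by rw [hset]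
    simpa using this
  have hva : v a = 1 := (hmem a).2 (by simp)
  have hvb : v b = 1 := (hmem b).2 (by simp)
  have hve : v e = 1 := (hmem e).2 (by simp)
  have hvf : v f = 1 := (hmem f).2 (by simp)
  have hpm : ∀ y, v y = 1 ∨ v y = -1 := by
    intro y
    rcases hS.val y with h | h | h
    · exact Or.inl h
    · exact absurd h (hne y)
    · exact Or.inr h
  have hexp : ∀ F : X → ℤ, ∑ x ∈ univ.filter (fun x => v x = 1), F x = F a + F b + F e + F f := by
    intro F
    rw [hset, Finset.sum_insert (by simp [hab, hae, haf]), Finset.sum_insert (by simp [hbe, hbf]),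
      Finset.sum_insert (by simp [hef]), Finset.sum_singleton]
    ring
  have hF1 : n a + n b + n e + n f = 0 := by
    have h1 := rel_sum hS hn 1
    simp only [one_smul] at h1
    rw [hexp n] at h1
    exact h1
  have hF2 : ∀ g : G, n a * v (g • a) + n b * v (g • b) + n e * v (g • e) + n f * v (g • f) = 0 := by
    intro g
    have h1 := rel_sum' hS hne hn g
    rw [hexp (fun x => n x * v (g • x))] at h1
    exact h1
  -- it is enough to consider the four points
  suffices hsuff : (n b = n a ∨ n b = - n a) ∧ (n e = n a ∨ n e = - n a) ∧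
      (n f = n a ∨ n f = - n a) by
    have hall : ∀ y, n y = n a ∨ n y = - n a := by
      have h1 : ∀ y, v y = 1 → n y = n a ∨ n y = - n a := by
        intro y hy
        rcases (hmem y).1 hy with rfl | rfl | rfl | rfl
        · exact Or.inl rfl
        · exact hsuff.1
        · exact hsuff.2.1
        · exact hsuff.2.2
      intro y
      rcases hpm y with h | h
      · exact h1 y h
      · have h2 := h1 (c y) (by rw [hS.odd, h]; norm_num)
        rw [hn.1] at h2
        omega
    intro x y
    have h1 := hall x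
    have h2 := hall y
    omega
  by_cases hodd : ∃ (g : G) (t : X), v t = 1 ∧ ∀ s, v s = 1 → s ≠ t → v (g • s) = - v (g • t)
  · obtain ⟨g, t, ht, h⟩ := hodd
    have h1 := zero_of_one hS hne g t ht h hn
    rw [h1]
    simp
  · push Not at hodd
    have hexc : ∀ (g : G) (t s₁ s₂ s₃ : X), v t = 1 →
        (∀ s, v s = 1 → s ≠ t → s = s₁ ∨ s = s₂ ∨ s = s₃) →
        ¬ (v (g • s₁) = - v (g • t) ∧ v (g • s₂) = - v (g • t) ∧ v (g • s₃) = - v (g • t)) := by
      intro g t s₁ s₂ s₃ ht hs hcon
      obtain ⟨s, hs1, hs2, hs3⟩ := hodd g t ht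
      rcases hs s hs1 hs2 with rfl | rfl | rfl
      · exact hs3 hcon.1
      · exact hs3 hcon.2.1
      · exact hs3 hcon.2.2
    have hsp : ∀ x y, x ≠ y → ∃ g : G, v (g • x) ≠ v (g • y) := by
      intro x y hxy
      by_contra hcon
      push Not at hcon
      exact hxy (hS.sep x y hcon)
    have hev : ∀ g : G,
        ¬ (v (g • b) = - v (g • a) ∧ v (g • e) = - v (g • a) ∧ v (g • f) = - v (g • a)) ∧
        ¬ (v (g • a) = - v (g • b) ∧ v (g • e) = - v (g • b) ∧ v (g • f) = - v (g • b)) ∧
        ¬ (v (g • a) = - v (g • e) ∧ v (g • b) = - v (g • e) ∧ v (g • f) = - v (g • e)) ∧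
        ¬ (v (g • a) = - v (g • f) ∧ v (g • b) = - v (g • f) ∧ v (g • e) = - v (g • f)) := by
      intro g
      refine ⟨hexc g a b e f hva ?_, hexc g b a e f hvb ?_, hexc g e a b f hve ?_,
        hexc g f a b e hvf ?_⟩ <;>
      · intro s h1 h2
        rcases (hmem s).1 h1 with rfl | rfl | rfl | rfl <;>
        first
          | exact absurd rfl h2
          | exact Or.inl rfl
          | exact Or.inr (Or.inl rfl)
          | exact Or.inr (Or.inr rfl)
    -- for each `g` with `v (g • x) ≠ v (g • y)`
    have hstep : ∀ g : G,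
        (v (g • a) ≠ v (g • b) → (n e = - n a ∧ n f = - n b) ∨ (n f = - n a ∧ n e = - n b)) ∧
        (v (g • a) ≠ v (g • e) → (n b = - n a ∧ n f = - n e) ∨ (n f = - n a ∧ n e = - n b)) ∧
        (v (g • a) ≠ v (g • f) → (n b = - n a ∧ n f = - n e) ∨ (n e = - n a ∧ n f = - n b)) := by
      intro g
      have h1 := hF2 g
      obtain ⟨e1, e2, e3, e4⟩ := hev g
      rcases hpm (g • a) with ha | ha <;> rcases hpm (g • b) with hb | hb <;>
        rcases hpm (g • e) with he | he <;> rcases hpm (g • f) with hf | hf <;>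
        rw [ha, hb, he, hf] at h1 e1 e2 e3 e4 <;> rw [ha, hb, he, hf] <;>
        clear ha hb he hf <;> refine ⟨?_, ?_, ?_⟩ <;> intro hh <;> omega
    obtain ⟨g1, hg1⟩ := hsp a b hab
    obtain ⟨g2, hg2⟩ := hsp a e hae
    obtain ⟨g3, hg3⟩ := hsp a f haf
    have s1 := (hstep g1).1 hg1
    have s2 := (hstep g2).2.1 hg2
    have s3 := (hstep g3).2.2 hg3
    omega

end Pool.Agent.W517.K3
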