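import Mathlib
import Pool.Agent.W517.K3.Core2
import Pool.Agent.W517.K3.Circ

/-!
# Relations between signed translates: prime cycles, powers of two
-/

set_option autoImplicit false
set_option linter.unusedSectionVars false

namespace Pool.Agent.W517.K3

open Finset

variable {G X : Type*} [Group G] [MulAction G X] [Fintype X] {c : X → X} {v : X → ℤ}
variable (hS : Sgn G c v)

/-- sums of even functions supported on `C ∪ c C` -/
theorem sum_support [DecidableEq X] (hcc : ∀ x, c (c x) = x) {ℓ : ℕ} (δ : G) (x₀ : X)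
    (hinj : ∀ i < ℓ, ∀ j < ℓ, δ ^ i • x₀ = δ ^ j • x₀ → i = j)
    (hdis : ∀ i j : ℕ, δ ^ i • x₀ ≠ c (δ ^ j • x₀)) (F : X → ℤ) (hF : ∀ x, F (c x) = F x)
    (hF0 : ∀ y, (∀ i < ℓ, y ≠ δ ^ i • x₀ ∧ y ≠ c (δ ^ i • x₀)) → F y = 0) :
    ∑ x, F x = 2 * ∑ i ∈ range ℓ, F (δ ^ i • x₀) := by
  have hcinj : ∀ x y, c x = c y → x = y := by
    intro x y h
    rw [← hcc x, h, hcc]
  set C : Finset X := (range ℓ).image (fun i => δ ^ i • x₀) with hC
  set C' : Finset X := (range ℓ).image (fun i => c (δ ^ i • x₀)) with hC'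
  have hdisj : Disjoint C C' := by
    rw [Finset.disjoint_left]
    intro y hy hy'
    obtain ⟨i, -, rfl⟩ := Finset.mem_image.1 hy
    obtain ⟨j, -, hj⟩ := Finset.mem_image.1 hy'
    exact hdis i j hj.symm
  have h1 : ∑ x, F x = ∑ x ∈ C ∪ C', F x := by
    symm
    refine Finset.sum_subset (Finset.subset_univ _) ?_
    intro y _ hy
    apply hF0
    intro i hi
    rw [Finset.mem_union, not_or] at hy
    constructor
    · intro h
      exact hy.1 (Finset.mem_image.2 ⟨i, Finset.mem_range.2 hi, h.symm⟩)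
    · intro h
      exact hy.2 (Finset.mem_image.2 ⟨i, Finset.mem_range.2 hi, h.symm⟩)
  rw [h1, Finset.sum_union hdisj, two_mul]
  congr 1
  · rw [hC, Finset.sum_image]
    intro i hi j hj h
    exact hinj i (Finset.mem_range.1 hi) j (Finset.mem_range.1 hj) h
  · rw [hC', Finset.sum_image]
    · exact Finset.sum_congr rfl fun i _ => hF _
    · intro i hi j hj h
      exact hinj i (Finset.mem_range.1 hi) j (Finset.mem_range.1 hj) (hcinj _ _ h)

include hS in
/-- **cycle lemma**: relations are constant on isolated cycles of prime length -/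
theorem cycle_lemma [DecidableEq X] {ℓ : ℕ} (hℓ : ℓ.Prime) (δ : G) (x₀ : X)
    (hper : δ ^ ℓ • x₀ = x₀)
    (hinj : ∀ i < ℓ, ∀ j < ℓ, δ ^ i • x₀ = δ ^ j • x₀ → i = j)
    (hdis : ∀ i j : ℕ, δ ^ i • x₀ ≠ c (δ ^ j • x₀))
    (hfix : ∀ y, (∀ i < ℓ, y ≠ δ ^ i • x₀ ∧ y ≠ c (δ ^ i • x₀)) → δ • y = y)
    {n : X → ℤ} (hn : Rel G c v n) (i : ℕ) : n (δ ^ i • x₀) = n x₀ := by
  by_contra hcon
  set n' : X → ℤ := fun x => n x - n (δ • x) with hn'
  have hrel' : Rel G c v n' := hn.sub (hn.translate hS δ)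
  -- the orbit is invariant
  have hstep : ∀ i, δ ^ (i + ℓ) • x₀ = δ ^ i • x₀ := by
    intro i
    rw [pow_add, mul_smul, hper]
  -- some value of `n'` is nonzero
  obtain ⟨i₀, hi₀, hne⟩ : ∃ i₀ < ℓ, n' (δ ^ i₀ • x₀) ≠ 0 := by
    by_contra hall
    push Not at hall
    have hmod : ∀ i, δ ^ i • x₀ = δ ^ (i % ℓ) • x₀ := by
      intro i
      induction i using Nat.strong_induction_on with
      | _ i ih =>
        by_cases h : i < ℓ
        · rw [Nat.mod_eq_of_lt h]
        · obtain ⟨k, rfl⟩ : ∃ k, i = k + ℓ := ⟨i - ℓ, by omega⟩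
          rw [hstep, ih k (by have := hℓ.pos; omega), Nat.add_mod_right]
    have hall' : ∀ i, n (δ ^ i • x₀) = n (δ ^ (i + 1) • x₀) := by
      intro i
      have h1 := hall (i % ℓ) (Nat.mod_lt _ hℓ.pos)
      rw [← hmod] at h1
      rw [pow_succ', mul_smul]
      simp only [hn'] at h1
      omega
    apply hcon
    clear hcon
    induction i with
    | zero => rw [pow_zero, one_smul]
    | succ i ih => rw [← hall' i, ih]
  -- `v` is constant on translates of the cycle
  have hconst : ∀ g : G, v (g • (δ • x₀)) = v (g • x₀) := by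
    intro g
    have h1 := circ hℓ (fun i => n' (δ ^ i • x₀)) (fun i => v (g • (δ ^ i • x₀))) (by
      intro i
      rw [hstep]) (by
      intro j
      have h2 := hrel'.2 (g * δ ^ j)
      rw [sum_support (c := c) hS.cc δ x₀ hinj hdis (fun x => n' x * v ((g * δ ^ j) • x)) (by
        intro x
        rw [hrel'.1, ← hS.cg, hS.odd]
        ring) (by
        intro y hy
        have h3 : n' y = 0 := by
          simp only [hn']
          rw [hfix y hy, sub_self]
        rw [h3, zero_mul])] at h2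
      have h3 : ∀ i, (g * δ ^ j) • (δ ^ i • x₀) = g • (δ ^ (i + j) • x₀) := by
        intro i
        rw [mul_smul, ← mul_smul (δ ^ j), ← pow_add, add_comm j i]
      simp only [h3] at h2
      omega) (by
      have h4 : ∀ i, n' (δ ^ i • x₀) = n (δ ^ i • x₀) - n (δ ^ (i + 1) • x₀) := by
        intro i
        simp only [hn']
        rw [pow_succ', mul_smul]
      simp only [h4]
      rw [Finset.sum_range_sub', pow_zero, one_smul, hper, sub_self]) i₀ hi₀ hne 1 hℓ.one_lt
    simp only [pow_one, pow_zero, one_smul] at h1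
    exact h1
  have h5 := hS.sep _ _ hconst
  have h6 := hinj 1 hℓ.one_lt 0 hℓ.pos (by rw [pow_one, pow_zero, one_smul, h5])
  omega

/-- a cycle of odd length is disjoint from its conjugate -/
theorem cycle_disj (hcc : ∀ x, c (c x) = x) (hcg : ∀ (g : G) x, c (g • x) = g • c x)
    (hcne : ∀ x, c x ≠ x) (δ : G) (y : X) (hodd : Odd (MulAction.period δ y)) (i j : ℕ) :
    δ ^ i • y ≠ c (δ ^ j • y) := by
  intro h
  -- then `c y = δ ^ k • y` for an integer `k`
  have h1 : c y = (δ ^ ((i : ℤ) - j)) • y := by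
    rw [hcg] at h
    rw [sub_eq_neg_add, zpow_add, mul_smul, zpow_natCast, h, zpow_neg, zpow_natCast, inv_smul_smul]
  set k : ℤ := (i : ℤ) - j with hk
  have h2 : (δ ^ (2 * k)) • y = y := by
    have h3 : c (c y) = δ ^ k • (c y) := by
      nth_rewrite 1 [h1]
      rw [hcg]
    rw [hcc, h1, ← mul_smul, ← zpow_add] at h3
    rw [two_mul, ← h3]
  have h3 : ((MulAction.period δ y : ℕ) : ℤ) ∣ 2 * k := MulAction.zpow_smul_eq_iff_period_dvd.1 h2
  have h4 : ((MulAction.period δ y : ℕ) : ℤ) ∣ k := by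
    refine IsCoprime.dvd_of_dvd_mul_left ?_ h3
    have : Nat.Coprime (MulAction.period δ y) 2 := hodd.coprime_two_right
    exact_mod_cast Nat.isCoprime_iff_coprime.2 this
  have h5 : δ ^ k • y = y := MulAction.zpow_smul_eq_iff_period_dvd.2 h4
  exact hcne y (by rw [h1, h5])

end Pool.Agent.W517.K3
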