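import Mathlib
import Pool.Agent.W517.K3.Core3

/-!
# Relations between signed translates: the cases
-/

set_option autoImplicit false
set_option linter.unusedSectionVars false

namespace Pool.Agent.W517.K3

open Finset

variable {G X : Type*} [Group G] [MulAction G X] [Fintype X] {c : X → X} {v : X → ℤ}
variable (hS : Sgn G c v)

/-- an element of prime power order which moves a point -/
theorem exists_cycle [Finite G] (H : Subgroup G) (ℓ : ℕ) [hℓ : Fact ℓ.Prime] (a : X)
    (h : ℓ ∣ Nat.card (MulAction.orbit H a)) :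
    ∃ δ ∈ H, δ • a ≠ a ∧ ∃ k : ℕ, δ ^ (ℓ ^ k) = 1 := by
  obtain ⟨Q⟩ : Nonempty (Sylow ℓ H) := inferInstance
  have h1 := dvd_card_orbit ℓ 1 Q a (by rwa [pow_one])
  rw [pow_one] at h1
  have h2 : ∃ δ : Q, δ • a ≠ a := by
    by_contra hcon
    push Not at hcon
    have h3 : Nat.card (MulAction.orbit Q a) = 1 := by
      rw [Nat.card_eq_one_iff_unique]
      refine ⟨⟨?_⟩, ⟨⟨a, MulAction.mem_orbit_self a⟩⟩⟩
      rintro ⟨x, ⟨g, rfl⟩⟩ ⟨y, ⟨g', rfl⟩⟩
      apply Subtype.ext
      change g • a = g' • a
      rw [hcon g, hcon g']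
    rw [h3, Nat.dvd_one] at h1
    exact hℓ.out.one_lt.ne' h1
  obtain ⟨δ, hδ⟩ := h2
  refine ⟨((δ : H) : G), (δ : H).2, hδ, ?_⟩
  obtain ⟨k, hk⟩ := Q.isPGroup' δ
  refine ⟨k, ?_⟩
  have := congrArg (fun x : Q => ((x : H) : G)) hk
  simpa using this

theorem period_pow {ℓ : ℕ} (hℓ : ℓ.Prime) {δ : G} {k : ℕ} (hk : δ ^ (ℓ ^ k) = 1) (y : X) :
    ∃ j, MulAction.period δ y = ℓ ^ j := by
  have h1 : MulAction.period δ y ∣ ℓ ^ k := by
    rw [← MulAction.pow_smul_eq_iff_period_dvd, hk, one_smul]
  obtain ⟨j, -, hj⟩ := (Nat.dvd_prime_pow hℓ).1 h1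
  exact ⟨j, hj⟩

theorem period_inj (δ : G) (y : X) : ∀ i < MulAction.period δ y, ∀ j < MulAction.period δ y,
    δ ^ i • y = δ ^ j • y → i = j := by
  have key : ∀ i j : ℕ, i ≤ j → j < MulAction.period δ y → δ ^ i • y = δ ^ j • y → i = j := by
    intro i j hij hj h
    obtain ⟨k, rfl⟩ := Nat.exists_eq_add_of_le hij
    rw [pow_add, mul_smul] at h
    have h1 : δ ^ k • y = y := (smul_left_cancel _ h).symm
    have h2 := MulAction.pow_smul_eq_iff_period_dvd.1 h1
    rcases Nat.eq_zero_or_pos k with h3 | h3
    · omega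
    · have := Nat.le_of_dvd h3 h2
      omega
  intro i hi j hj h
  rcases le_total i j with hij | hij
  · exact key i j hij hj h
  · exact (key j i hij hi h.symm).symm

/-- counting a cycle and its conjugate -/
theorem two_period_le [DecidableEq X] (hcc : ∀ x, c (c x) = x) (δ : G) (y : X)
    (hdis : ∀ i j : ℕ, δ ^ i • y ≠ c (δ ^ j • y)) (A : Finset X)
    (h1 : ∀ i, δ ^ i • y ∈ A) (h2 : ∀ i, c (δ ^ i • y) ∈ A) :
    2 * MulAction.period δ y ≤ A.card ∧
      (2 * MulAction.period δ y = A.card → ∀ z ∈ A, ∃ i < MulAction.period δ y,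
        z = δ ^ i • y ∨ z = c (δ ^ i • y)) := by
  have hcinj : ∀ x y, c x = c y → x = y := by
    intro x y h
    rw [← hcc x, h, hcc]
  set C : Finset X := (range (MulAction.period δ y)).image (fun i => δ ^ i • y) with hC
  set C' : Finset X := (range (MulAction.period δ y)).image (fun i => c (δ ^ i • y)) with hC'
  have hdisj : Disjoint C C' := by
    rw [Finset.disjoint_left]
    intro z hz hz'
    obtain ⟨i, -, rfl⟩ := Finset.mem_image.1 hz
    obtain ⟨j, -, hj⟩ := Finset.mem_image.1 hz'
    exact hdis i j hj.symm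
  have hcard : C.card = MulAction.period δ y := by
    rw [hC, Finset.card_image_of_injOn, card_range]
    intro i hi j hj h
    exact period_inj δ y i (by simpa using hi) j (by simpa using hj) h
  have hcard' : C'.card = MulAction.period δ y := by
    rw [hC', Finset.card_image_of_injOn, card_range]
    intro i hi j hj h
    exact period_inj δ y i (by simpa using hi) j (by simpa using hj) (hcinj _ _ h)
  have hsub : C ∪ C' ⊆ A := by
    intro z hz
    rcases Finset.mem_union.1 hz with hz | hz
    · obtain ⟨i, -, rfl⟩ := Finset.mem_image.1 hz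
      exact h1 i
    · obtain ⟨i, -, rfl⟩ := Finset.mem_image.1 hz
      exact h2 i
  have hcu : (C ∪ C').card = 2 * MulAction.period δ y := by
    rw [Finset.card_union_of_disjoint hdisj, hcard, hcard', two_mul]
  refine ⟨by rw [← hcu]; exact Finset.card_le_card hsub, fun heq z hz => ?_⟩
  have hall : C ∪ C' = A := Finset.eq_of_subset_of_card_le hsub (by rw [hcu, heq])
  rw [← hall, Finset.mem_union] at hz
  rcases hz with hz | hz
  · obtain ⟨i, hi, rfl⟩ := Finset.mem_image.1 hz
    exact ⟨i, Finset.mem_range.1 hi, Or.inl rfl⟩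
  · obtain ⟨i, hi, rfl⟩ := Finset.mem_image.1 hz
    exact ⟨i, Finset.mem_range.1 hi, Or.inr rfl⟩

include hS in
/-- the number of points with `v = 1` is at most half of all -/
theorem card_add [DecidableEq X] : 2 * (univ.filter (fun x => v x = 1)).card +
    (univ.filter (fun x => v x = 0)).card = Fintype.card X := by
  have h1 : (univ.filter (fun x => v x = -1)).card = (univ.filter (fun x => v x = 1)).card := by
    refine Finset.card_bij (fun x _ => c x) ?_ ?_ ?_
    · intro y hy
      simp only [mem_filter, mem_univ, true_and] at hy ⊢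
      rw [hS.odd, hy]
      norm_num
    · intro y _ z _ h
      exact c_inj hS h
    · intro y hy
      refine ⟨c y, ?_, hS.cc y⟩
      simp only [mem_filter, mem_univ, true_and] at hy ⊢
      rw [hS.odd, hy]
  have h2 : (univ : Finset X) = univ.filter (fun x => v x = 1) ∪
      (univ.filter (fun x => v x = -1) ∪ univ.filter (fun x => v x = 0)) := by
    ext x
    simp only [mem_univ, mem_union, mem_filter, true_and, true_iff]
    rcases hS.val x with h | h | h
    · exact Or.inl h
    · exact Or.inr (Or.inr h)
    · exact Or.inr (Or.inl h)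
  have h3 : Fintype.card X = (univ.filter (fun x => v x = 1)).card +
      ((univ.filter (fun x => v x = -1)).card + (univ.filter (fun x => v x = 0)).card) := by
    have h4 := congrArg Finset.card h2
    rw [Finset.card_univ] at h4
    rw [h4, Finset.card_union_of_disjoint, Finset.card_union_of_disjoint]
    · rw [Finset.disjoint_left]
      intro x hx hx'
      simp only [mem_filter, mem_univ, true_and] at hx hx'
      omega
    · rw [Finset.disjoint_left]
      intro x hx hx'
      simp only [mem_union, mem_filter, mem_univ, true_and] at hx hx'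
      omega
  rw [h3, h1]
  ring

include hS in
/-- twice an odd prime number of points -/
theorem core_prime [DecidableEq X] [Finite G] {ℓ : ℕ} (hℓ : ℓ.Prime) (hodd : ℓ ≠ 2)
    (hX : Fintype.card X = 2 * ℓ) {n₀ : X → ℤ} (h₀ : Rel G c v n₀) (hn₀ : n₀ ≠ fun _ => 0)
    (x : X) : csum G c v x = 0 := by
  have : Fact ℓ.Prime := ⟨hℓ⟩
  have ho : Odd ℓ := hℓ.odd_of_ne_two hodd
  obtain ⟨a, ha⟩ := hS.ex
  obtain ⟨δ, -, hδa, k, hk⟩ := exists_cycle (⊤ : Subgroup G) ℓ a (by
    have h1 : MulAction.orbit (⊤ : Subgroup G) a = Set.univ := by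
      ext y
      simp only [Set.mem_univ, iff_true]
      obtain ⟨g, hg⟩ := hS.trans a y
      exact ⟨⟨g, Subgroup.mem_top g⟩, hg⟩
    rw [h1, Nat.card_congr (Equiv.Set.univ X), Nat.card_eq_fintype_card, hX]
    exact Dvd.intro_left 2 rfl)
  obtain ⟨j, hj⟩ := period_pow hℓ hk a
  have hj0 : j ≠ 0 := by
    intro h
    rw [h, pow_zero] at hj
    apply hδa
    have := MulAction.pow_period_smul δ a
    rwa [hj, pow_one] at this
  have hodd' : Odd (MulAction.period δ a) := by
    rw [hj]
    exact ho.pow
  have hdis := cycle_disj hS.cc hS.cg (c_ne hS) δ a hodd'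
  obtain ⟨h1, h2⟩ := two_period_le hS.cc δ a hdis univ (fun _ => mem_univ _) (fun _ => mem_univ _)
  rw [Finset.card_univ, hX] at h1 h2
  have h3 : MulAction.period δ a = ℓ := by
    have h4 : ℓ ≤ ℓ ^ j := Nat.le_self_pow hj0 ℓ
    omega
  rw [h3] at h2
  have hall := h2 rfl
  have hcyc : ∀ n : X → ℤ, Rel G c v n → ∀ i : ℕ, n (δ ^ i • a) = n a := by
    intro n hn i
    refine cycle_lemma hS hℓ δ a ?_ ?_ hdis ?_ hn i
    · have := MulAction.pow_period_smul δ a
      rwa [h3] at this
    · have := period_inj δ a
      rwa [h3] at this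
    · intro y hy
      exfalso
      obtain ⟨i, hi, h | h⟩ := hall y (mem_univ y)
      · exact (hy i hi).1 h
      · exact (hy i hi).2 h
  refine core_of_abs hS ?_ h₀ hn₀ x
  intro n hn
  have h5 : ∀ x, n x = n a ∨ n x = - n a := by
    intro x
    obtain ⟨i, -, rfl | rfl⟩ := hall x (mem_univ x)
    · exact Or.inl (hcyc n hn i)
    · right
      rw [hn.1, hcyc n hn i]
  intro x y
  have h6 := h5 x
  have h7 := h5 y
  omega

/-- the stabiliser of `v` -/
def stabv (G : Type*) {X : Type*} [Group G] [MulAction G X] (v : X → ℤ) : Subgroup G where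
  carrier := {δ | ∀ z, v (δ • z) = v z}
  mul_mem' := by
    intro a b ha hb z
    rw [mul_smul, ha, hb]
  one_mem' := by
    intro z
    rw [one_smul]
  inv_mem' := by
    intro a ha z
    rw [← ha (a⁻¹ • z), smul_inv_smul]

include hS in
/-- a prime number of points with `v = 1`, few other points -/
theorem core_prime' [DecidableEq X] [Finite G] {ℓ : ℕ} (hℓ : ℓ.Prime) (hodd : ℓ ≠ 2)
    (hm : (univ.filter (fun x => v x = 1)).card = ℓ) (hX : Fintype.card X < 4 * ℓ)
    {n : X → ℤ} (hn : Rel G c v n) : n = fun _ => 0 := by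
  have : Fact ℓ.Prime := ⟨hℓ⟩
  have ho : Odd ℓ := hℓ.odd_of_ne_two hodd
  obtain ⟨a, ha⟩ := hS.ex
  have horb : MulAction.orbit (stabv G v) a = {x | v x = 1} := by
    ext y
    constructor
    · rintro ⟨δ, rfl⟩
      change v (δ • a) = 1
      rw [← ha]
      exact δ.2 a
    · intro hy
      obtain ⟨δ, hδ, hδv⟩ := hS.place a y ha hy
      exact ⟨⟨δ, hδv⟩, hδ⟩
  obtain ⟨δ, hδD, hδa, k, hk⟩ := exists_cycle (stabv G v) ℓ a (by
    rw [horb, ← hm]
    have h1 : Nat.card {x | v x = 1} = (univ.filter (fun x => v x = 1)).card := by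
      rw [Nat.card_eq_fintype_card, Fintype.card_subtype]
      rfl
    rw [h1])
  have hδv : ∀ (i : ℕ) z, v (δ ^ i • z) = v z := by
    intro i
    induction i with
    | zero => intro z; rw [pow_zero, one_smul]
    | succ i ih => intro z; rw [pow_succ, mul_smul, ih, hδD z]
  obtain ⟨j, hj⟩ := period_pow hℓ hk a
  have hj0 : j ≠ 0 := by
    intro h
    rw [h, pow_zero] at hj
    apply hδa
    have := MulAction.pow_period_smul δ a
    rwa [hj, pow_one] at this
  have hodd' : Odd (MulAction.period δ a) := by
    rw [hj]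
    exact ho.pow
  have hdis := cycle_disj hS.cc hS.cg (c_ne hS) δ a hodd'
  have hcardS := card_add hS
  have hpm : (univ.filter (fun x => v x = 1 ∨ v x = -1)).card = 2 * ℓ := by
    have h1 : (univ.filter (fun x => v x = 1 ∨ v x = -1)).card +
        (univ.filter (fun x => v x = 0)).card = Fintype.card X := by
      rw [← Finset.card_union_of_disjoint, ← Finset.card_univ]
      · congr 1
        ext x
        simp only [mem_union, mem_filter, mem_univ, true_and, iff_true]
        rcases hS.val x with h | h | h <;> simp [h]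
      · rw [Finset.disjoint_left]
        intro x hx hx'
        simp only [mem_filter, mem_univ, true_and] at hx hx'
        omega
    omega
  obtain ⟨h1, h2⟩ := two_period_le hS.cc δ a hdis (univ.filter (fun x => v x = 1 ∨ v x = -1))
    (fun i => by
      simp only [mem_filter, mem_univ, true_and]
      left
      rw [hδv, ha]) (fun i => by
      simp only [mem_filter, mem_univ, true_and]
      right
      rw [hS.odd, hδv, ha])
  rw [hpm] at h1 h2
  have h3 : MulAction.period δ a = ℓ := by
    have h4 : ℓ ≤ ℓ ^ j := Nat.le_self_pow hj0 ℓ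
    omega
  rw [h3] at h2
  have hall := h2 rfl
  have hcyc : ∀ n : X → ℤ, Rel G c v n → ∀ i : ℕ, n (δ ^ i • a) = n a := by
    intro n hn i
    refine cycle_lemma hS hℓ δ a ?_ ?_ hdis ?_ hn i
    · have := MulAction.pow_period_smul δ a
      rwa [h3] at this
    · have := period_inj δ a
      rwa [h3] at this
    · intro y hy
      have hy0 : v y = 0 := by
        by_contra hne
        have h5 : y ∈ univ.filter (fun x => v x = 1 ∨ v x = -1) := by
          simp only [mem_filter, mem_univ, true_and]
          rcases hS.val y with h | h | h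
          · exact Or.inl h
          · exact absurd h hne
          · exact Or.inr h
        obtain ⟨i, hi, h | h⟩ := hall y h5
        · exact (hy i hi).1 h
        · exact (hy i hi).2 h
      by_contra hne
      obtain ⟨j', hj'⟩ := period_pow hℓ hk y
      have hj'0 : j' ≠ 0 := by
        intro h
        rw [h, pow_zero] at hj'
        apply hne
        have := MulAction.pow_period_smul δ y
        rwa [hj', pow_one] at this
      have hodd'' : Odd (MulAction.period δ y) := by
        rw [hj']
        exact ho.pow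
      have hdis' := cycle_disj hS.cc hS.cg (c_ne hS) δ y hodd''
      obtain ⟨h6, -⟩ := two_period_le hS.cc δ y hdis' (univ.filter (fun x => v x = 0))
        (fun i => by
          simp only [mem_filter, mem_univ, true_and]
          rw [hδv, hy0]) (fun i => by
          simp only [mem_filter, mem_univ, true_and]
          rw [hS.odd, hδv, hy0, neg_zero])
      have h7 : ℓ ≤ ℓ ^ j' := Nat.le_self_pow hj'0 ℓ
      omega
  -- relations vanish at `a`
  have hza : ∀ n : X → ℤ, Rel G c v n → n a = 0 := by
    intro n hn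
    have h5 := rel_sum hS hn 1
    simp only [one_smul] at h5
    have h6 : ∀ x ∈ univ.filter (fun x => v x = 1), n x = n a := by
      intro x hx
      simp only [mem_filter, mem_univ, true_and] at hx
      obtain ⟨i, -, h | h⟩ := hall x (by simp [hx])
      · rw [h, hcyc n hn i]
      · exfalso
        rw [h, hS.odd, hδv, ha] at hx
        omega
    rw [Finset.sum_congr rfl h6, Finset.sum_const, hm, nsmul_eq_mul] at h5
    have h7 : (ℓ : ℤ) ≠ 0 := by exact_mod_cast hℓ.ne_zero
    exact (mul_eq_zero.1 h5).resolve_left h7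
  exact zero_of_orbit hS a fun g => hza _ (hn.translate hS g)

include hS in
/-- a power of two points and an odd number of points with `v = 1` -/
theorem core_two_pow [DecidableEq X] [Finite G] {k : ℕ} (hX : Fintype.card X = 2 ^ k)
    (hm : Odd (univ.filter (fun x => v x = 1)).card)
    {n : X → ℤ} (hn : Rel G c v n) : n = fun _ => 0 := by
  classical
  have : Fact (Nat.Prime 2) := ⟨Nat.prime_two⟩
  obtain ⟨Q⟩ : Nonempty (Sylow 2 G) := inferInstance
  -- `Q` is transitive
  have hQ : ∀ x y : X, ∃ g : Q, g • x = y := by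
    intro x y
    have h1 := dvd_card_orbit (H := G) 2 k Q x (by
      have h1 : MulAction.orbit G x = Set.univ := by
        ext y
        simp only [Set.mem_univ, iff_true]
        obtain ⟨g, hg⟩ := hS.trans x y
        exact ⟨g, hg⟩
      rw [h1, Nat.card_congr (Equiv.Set.univ X), Nat.card_eq_fintype_card, hX])
    have h2 : Nat.card X ≤ Nat.card (MulAction.orbit Q x) := by
      rw [Nat.card_eq_fintype_card, hX]
      have : Nonempty (MulAction.orbit Q x) := ⟨⟨x, MulAction.mem_orbit_self x⟩⟩
      exact Nat.le_of_dvd Nat.card_pos h1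
    have h3 : MulAction.orbit Q x = Set.univ := by
      apply Set.eq_of_subset_of_ncard_le (Set.subset_univ _)
      · rw [Set.ncard_univ]
        exact h2
    have h4 : y ∈ MulAction.orbit Q x := by rw [h3]; exact Set.mem_univ y
    exact h4
  -- no relation has only odd values
  have hno : ∀ n : X → ℤ, Rel G c v n → ¬ ∀ x, Odd (n x) := by
    intro n hn hodd
    have h5 := rel_sum hS hn 1
    simp only [one_smul] at h5
    choose w hw using hodd
    rw [Finset.sum_congr rfl fun x _ => hw x, Finset.sum_add_distrib, ← Finset.mul_sum,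
      Finset.sum_const, nsmul_eq_mul, mul_one] at h5
    obtain ⟨r, hr⟩ := hm
    rw [hr] at h5
    push_cast at h5
    omega
  -- relations modulo two
  let N : AddSubgroup (X → ZMod 2) :=
    { carrier := {f | ∃ n : X → ℤ, Rel G c v n ∧ ∀ x, f x = (n x : ZMod 2)}
      add_mem' := by
        rintro f f' ⟨n, hn, h⟩ ⟨n', hn', h'⟩
        exact ⟨_, hn.add hn', fun x => by simp [h, h']⟩
      zero_mem' := ⟨_, Rel.zero, fun x => by simp⟩
      neg_mem' := by
        rintro f ⟨n, hn, h⟩
        exact ⟨_, hn.neg, fun x => by simp [h]⟩ }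
  let act : MulAction Q N :=
    { smul := fun g f => ⟨fun x => f.1 (g⁻¹ • x), by
        obtain ⟨n, hn, h⟩ := f.2
        refine ⟨fun x => n (((g⁻¹ : Q) : G) • x), hn.translate hS _, fun x => ?_⟩
        exact h _⟩
      one_smul := by
        intro f
        apply Subtype.ext
        funext x
        change f.1 ((1 : Q)⁻¹ • x) = f.1 x
        rw [inv_one, one_smul]
      mul_smul := by
        intro g g' f
        apply Subtype.ext
        funext x
        change f.1 ((g * g')⁻¹ • x) = f.1 (g'⁻¹ • (g⁻¹ • x))
        rw [mul_inv_rev, mul_smul] }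
  have hact : ∀ (g : Q) (f : N) x, (g • f).1 x = f.1 (g⁻¹ • x) := fun g f x => rfl
  -- all relations are even
  have heven : ∀ n : X → ℤ, Rel G c v n → ∀ x, Even (n x) := by
    intro n hn x
    by_contra hx
    rw [Int.not_even_iff_odd] at hx
    have hfin : Finite N := inferInstance
    let f₀ : N := ⟨fun x => (n x : ZMod 2), n, hn, fun _ => rfl⟩
    have hf₀ : f₀ ≠ 0 := by
      intro h
      have h1 := congrFun (congrArg Subtype.val h) x
      change (n x : ZMod 2) = 0 at h1
      have h2 := (ZMod.intCast_zmod_eq_zero_iff_dvd (n x) 2).1 h1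
      have h3 : Even (n x) := even_iff_two_dvd.2 (by exact_mod_cast h2)
      exact (Int.not_even_iff_odd.2 hx) h3
    have hord : addOrderOf f₀ = 2 := by
      apply addOrderOf_eq_prime
      · apply Subtype.ext
        funext y
        change (2 • f₀.1) y = 0
        rw [Pi.smul_apply, two_nsmul]
        exact CharTwo.add_self_eq_zero _
      · exact hf₀
    have hdvd : 2 ∣ Nat.card N := by
      have := addOrderOf_dvd_natCard f₀
      rwa [hord] at this
    have h0 : (0 : N) ∈ MulAction.fixedPoints Q N := by
      intro g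
      apply Subtype.ext
      funext y
      rfl
    obtain ⟨f, hf, hne⟩ := Q.isPGroup'.exists_fixed_point_of_prime_dvd_card_of_fixed_point N hdvd h0
    have hfix : ∀ (g : Q) y, f.1 (g⁻¹ • y) = f.1 y := by
      intro g y
      have h1 := congrFun (congrArg Subtype.val (hf g)) y
      exact h1
    obtain ⟨n', hn', h'⟩ := f.2
    obtain ⟨y₀, hy₀⟩ : ∃ y, f.1 y ≠ 0 := by
      by_contra hcon
      push Not at hcon
      apply hne
      apply Subtype.ext
      funext y
      exact (hcon y).symm
    refine hno n' hn' fun z => ?_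
    obtain ⟨g, hg⟩ := hQ z y₀
    have h1 := hfix g y₀
    rw [← hg, inv_smul_smul] at h1
    rw [← Int.not_even_iff_odd]
    intro hz
    apply hy₀
    rw [← hg, ← h1, h']
    obtain ⟨w, hw⟩ := hz
    rw [hw]
    push_cast
    exact CharTwo.add_self_eq_zero _
  -- infinite descent
  have hdesc : ∀ (N : ℕ) (n : X → ℤ), Rel G c v n → ∀ x, (n x).natAbs ≤ N → n x = 0 := by
    intro N
    induction N with
    | zero =>
      intro n _ x h
      omega
    | succ N ih =>
      intro n hn x h
      by_contra hne
      choose w hw using heven n hn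
      have hrel : Rel G c v w := by
        refine ⟨fun y => ?_, fun g => ?_⟩
        · have h1 := hn.1 y
          rw [hw y, hw (c y)] at h1
          omega
        · have h1 := hn.2 g
          have h2 : ∀ y, n y * v (g • y) = 2 * (w y * v (g • y)) := by
            intro y
            rw [hw y]
            ring
          simp only [h2] at h1
          rw [← Finset.mul_sum] at h1
          omega
      have h3 := ih w hrel x (by rw [hw x] at h hne; omega)
      apply hne
      rw [hw x, h3, add_zero]
  funext x
  exact hdesc _ n hn x le_rfl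

include hS in
/-- **the core theorem** -/
theorem core [DecidableEq X] [Finite G] {d m : ℕ} (hX : Fintype.card X = 2 * d)
    (hm : (univ.filter (fun x => v x = 1)).card = m)
    (hcase : m ≤ 2 ∨ d.Prime ∨ d = 4 ∨ (Odd m ∧ ∃ k, d = 2 ^ k) ∨ (m.Prime ∧ d < 2 * m))
    {n₀ : X → ℤ} (h₀ : Rel G c v n₀) (hn₀ : n₀ ≠ fun _ => 0) (x : X) : csum G c v x = 0 := by
  have hcard := card_add hS
  by_cases h2 : m ≤ 2
  · exact core_le_two hS (by omega) h₀ hn₀ x
  have htwo : (Odd m ∧ ∃ k, d = 2 ^ k) → csum G c v x = 0 := by
    rintro ⟨ho, k, rfl⟩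
    exact absurd (core_two_pow hS (k := k + 1) (by rw [hX, pow_succ]; ring) (by rw [hm]; exact ho)
      h₀) hn₀
  rcases hcase with h | h | h | h | h
  · exact absurd h h2
  · refine core_prime hS h ?_ hX h₀ hn₀ x
    rintro rfl
    omega
  · by_cases h4 : m = 4
    · exact core_eight hS (by omega) (by omega) h₀ hn₀ x
    · have h3 : m = 3 := by omega
      exact htwo ⟨by rw [h3]; decide, 2, by rw [h]; norm_num⟩
  · exact htwo h
  · exact absurd (core_prime' hS h.1 (by omega) hm (by omega) h₀) hn₀

end Pool.Agent.W517.K3
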