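import Mathlib
import Pool.Agent.H485R3.Exact.ExoticMain
import Pool.Agent.W517.K3.Defs
import Pool.Agent.W517.K3.Core4

/-!
# The signed set of embeddings
-/

set_option autoImplicit false
set_option linter.unusedSectionVars false

namespace Pool.Agent.W517.K3

open NumberField Pool.Agent.H485R3

noncomputable section

section basics

variable {E L : Type} [Field E] [NumberField E] [Field L] [Algebra ℚ L]

/-- the Galois group acts on embeddings -/
instance galAct : MulAction (L ≃ₐ[ℚ] L) (E →ₐ[ℚ] L) where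
  smul g φ := (g : L →ₐ[ℚ] L).comp φ
  one_smul φ := by
    ext x
    rfl
  mul_smul g h φ := by
    ext x
    rfl

theorem smul_apply (g : L ≃ₐ[ℚ] L) (φ : E →ₐ[ℚ] L) (x : E) : (g • φ) x = g (φ x) := rfl

/-- the conjugate embedding -/
def bar [IsCMField E] (φ : E →ₐ[ℚ] L) : E →ₐ[ℚ] L :=
  RingHom.toRatAlgHom ((φ : E →+* L).comp (IsCMField.complexConj E : E →+* E))

variable [IsCMField E]

theorem bar_apply (φ : E →ₐ[ℚ] L) (x : E) : bar φ x = φ (IsCMField.complexConj E x) := rfl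

theorem bar_bar (φ : E →ₐ[ℚ] L) : bar (bar φ) = φ := by
  ext x
  rw [bar_apply, bar_apply, IsCMField.complexConj_apply_apply]

theorem bar_smul (g : L ≃ₐ[ℚ] L) (φ : E →ₐ[ℚ] L) : bar (g • φ) = g • bar φ := by
  ext x
  rfl

theorem exists_smul_eq [FiniteDimensional ℚ L] [IsGalois ℚ L] (φ ψ : E →ₐ[ℚ] L) :
    ∃ g : L ≃ₐ[ℚ] L, g • φ = ψ := by
  let _ : Algebra E L := φ.toRingHom.toAlgebra
  have hst : IsScalarTower ℚ E L := IsScalarTower.of_algebraMap_eq fun x => (φ.commutes x).symm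
  let h : L →ₐ[ℚ] L := AlgHom.liftNormal ψ L
  have hh : ∀ x, h (φ x) = ψ x := fun x => AlgHom.liftNormal_commutes ψ L x
  have hbij : Function.Bijective h := by
    have : Function.Injective h.toLinearMap := h.toRingHom.injective
    exact ⟨this, LinearMap.surjective_of_injective this⟩
  refine ⟨AlgEquiv.ofBijective h hbij, ?_⟩
  ext x
  exact hh x

theorem hom_ext_gen {β : E} (hgen : IntermediateField.adjoin ℚ {β} = ⊤) {σ τ : E →ₐ[ℚ] L}
    (h : σ β = τ β) : σ = τ := by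
  have h1 : ∀ x ∈ IntermediateField.adjoin ℚ {β}, σ x = τ x := by
    intro x hx
    induction hx using IntermediateField.adjoin_induction with
    | mem x hx =>
      rw [Set.mem_singleton_iff.1 hx]
      exact h
    | algebraMap x => rw [AlgHom.commutes, AlgHom.commutes]
    | add x y _ _ hx hy => rw [map_add, map_add, hx, hy]
    | inv x _ hx => rw [map_inv₀, map_inv₀, hx]
    | mul x y _ _ hx hy => rw [map_mul, map_mul, hx, hy]
  ext x
  exact h1 x (by rw [hgen]; exact IntermediateField.mem_top)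

end basics

section

variable {p a : ℕ} [Fact p.Prime] {E : Type} [Field E] [NumberField E] {α : E}
  (hα : IsK3Frobenius p a α)

include hα in
theorem alpha_mul_conj [IsCMField E] : α * IsCMField.complexConj E α = 1 := by
  obtain ⟨φ⟩ : Nonempty (E →+* ℂ) := inferInstance
  apply φ.injective
  rw [map_mul, IsCMField.complexEmbedding_complexConj, map_one, Complex.mul_conj,
    Complex.normSq_eq_norm_sq, hα.unitary φ]
  norm_num

include hα in
theorem alpha_ne : α ≠ 0 := by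
  obtain ⟨φ⟩ : Nonempty (E →+* ℂ) := inferInstance
  intro h
  have h1 := hα.unitary φ
  rw [h, map_zero, norm_zero] at h1
  exact zero_ne_one h1

include hα in
/-- `α` is a unit outside `p` -/
theorem norm_eq_one_of_ne (l : ℕ) [Fact l.Prime] (hl : l ≠ p) (y : E →+* PadicAlgCl l) :
    ‖y α‖ = 1 := by
  have := hα.cm
  have hmul := alpha_mul_conj hα
  have h5 : ‖((p : PadicAlgCl l) ^ a)‖ = 1 := by
    rw [norm_pow]
    have h4 : (p : PadicAlgCl l) = algebraMap ℚ_[l] (PadicAlgCl l) (p : ℚ_[l]) := by simp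
    rw [h4, PadicAlgCl.norm_extends]
    have h5 : ‖(p : ℚ_[l])‖ = 1 := by
      rw [Padic.norm_natCast_eq_one_iff]
      exact (Nat.coprime_primes (Fact.out : l.Prime) (Fact.out : p.Prime)).2 hl
    rw [h5, one_pow]
  have h1 : ‖y ((p : E) ^ a * α)‖ ≤ 1 :=
    norm_le_one_of_isIntegral l _ (hα.integral.map y.toIntAlgHom)
  have h2 : ‖y (IsCMField.complexConj E ((p : E) ^ a * α))‖ ≤ 1 := norm_le_one_of_isIntegral l _
    ((hα.integral.map ((IsCMField.complexConj E : E →+* E).toIntAlgHom)).map y.toIntAlgHom)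
  rw [map_mul, map_pow, map_natCast, norm_mul, h5, one_mul] at h1
  rw [map_mul, map_mul, map_pow, map_pow, map_natCast, map_natCast, norm_mul, h5, one_mul] at h2
  have h3 : ‖y α‖ * ‖y (IsCMField.complexConj E α)‖ = 1 := by
    rw [← norm_mul, ← map_mul, hmul, map_one, norm_one]
  nlinarith [norm_nonneg (y α), norm_nonneg (y (IsCMField.complexConj E α))]

variable {L : Type} [Field L] [Algebra ℚ L] [FiniteDimensional ℚ L] [IsGalois ℚ L]
  (e : L →ₐ[ℚ] PadicAlgCl p)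

/-- the sign of the slope -/
def vv (α : E) (e : L →ₐ[ℚ] PadicAlgCl p) (φ : E →ₐ[ℚ] L) : ℤ :=
  if 1 < ‖e (φ α)‖ then 1 else if ‖e (φ α)‖ < 1 then -1 else 0

theorem vv_eq_one_iff (φ : E →ₐ[ℚ] L) : vv α e φ = 1 ↔ 1 < ‖e (φ α)‖ := by
  unfold vv
  by_cases h : 1 < ‖e (φ α)‖
  · simp [h]
  · by_cases h' : ‖e (φ α)‖ < 1 <;> simp [h, h']

theorem vv_eq_neg_one_iff (φ : E →ₐ[ℚ] L) : vv α e φ = -1 ↔ ‖e (φ α)‖ < 1 := by
  unfold vv
  by_cases h : 1 < ‖e (φ α)‖
  · simp [h, not_lt.2 h.le]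
  · by_cases h' : ‖e (φ α)‖ < 1 <;> simp [h, h']

theorem vv_eq_zero_iff (φ : E →ₐ[ℚ] L) : vv α e φ = 0 ↔ ‖e (φ α)‖ = 1 := by
  unfold vv
  rcases lt_trichotomy ‖e (φ α)‖ 1 with h | h | h
  · simp [h, h.ne, not_lt.2 h.le]
  · simp [h]
  · simp [h, h.ne']

theorem vv_val (φ : E →ₐ[ℚ] L) : vv α e φ = 1 ∨ vv α e φ = 0 ∨ vv α e φ = -1 := by
  rw [vv_eq_one_iff, vv_eq_zero_iff, vv_eq_neg_one_iff]
  rcases lt_trichotomy ‖e (φ α)‖ 1 with h | h | h
  · exact Or.inr (Or.inr h)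
  · exact Or.inr (Or.inl h)
  · exact Or.inl h

include hα in
theorem norm_bar [IsCMField E] (φ : E →ₐ[ℚ] L) : ‖e (bar φ α)‖ = ‖e (φ α)‖⁻¹ := by
  have h1 : ‖e (φ α)‖ * ‖e (bar φ α)‖ = 1 := by
    rw [bar_apply, ← norm_mul, ← map_mul, ← map_mul, alpha_mul_conj hα, map_one, map_one,
      norm_one]
  exact eq_inv_of_mul_eq_one_right h1

include hα in
theorem norm_pos (φ : E →ₐ[ℚ] L) : 0 < ‖e (φ α)‖ :=
  norm_pos_iff.2 ((map_ne_zero e).2 ((map_ne_zero φ).2 (alpha_ne hα)))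

include hα in
theorem vv_odd [IsCMField E] (φ : E →ₐ[ℚ] L) : vv α e (bar φ) = - vv α e φ := by
  have hpos := norm_pos hα e φ
  rcases vv_val e φ (α := α) with h | h | h
  · rw [h, vv_eq_neg_one_iff, norm_bar hα]
    exact inv_lt_one_of_one_lt₀ ((vv_eq_one_iff e φ).1 h)
  · rw [h, neg_zero, vv_eq_zero_iff, norm_bar hα, (vv_eq_zero_iff e φ).1 h, inv_one]
  · rw [h, neg_neg, vv_eq_one_iff, norm_bar hα]
    exact (one_lt_inv₀ hpos).2 ((vv_eq_neg_one_iff e φ).1 h)

include hα in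
/-- conjugate over `ℚ_p` -/
theorem exists_place (φ ψ : E →ₐ[ℚ] L) (h1 : vv α e φ = 1) (h2 : vv α e ψ = 1) :
    ∃ δ : L ≃ₐ[ℚ] L, δ • φ = ψ ∧ ∀ z : L, ‖e (δ z)‖ = ‖e z‖ := by
  obtain ⟨g, hg⟩ := hα.place ((e : L →+* PadicAlgCl p).comp (φ : E →+* L))
    ((e : L →+* PadicAlgCl p).comp (ψ : E →+* L)) ((vv_eq_one_iff e φ).1 h1)
    ((vv_eq_one_iff e ψ).1 h2)
  let ge : L →ₐ[ℚ] PadicAlgCl p :=
    RingHom.toRatAlgHom ((g : PadicAlgCl p →+* PadicAlgCl p).comp (e : L →+* PadicAlgCl p))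
  have hge : ∀ z, ge z = g (e z) := fun z => rfl
  obtain ⟨δ, hδ⟩ := exists_gal e ge
  refine ⟨δ, ?_, ?_⟩
  · ext x
    apply e.toRingHom.injective
    change e (δ (φ x)) = e (ψ x)
    rw [← hδ, hge]
    exact (hg x).symm
  · intro z
    rw [← hδ, hge]
    have h3 := spectralNorm_eq_of_equiv (K := ℚ_[p]) (L := PadicAlgCl p) g (e z)
    rw [PadicAlgCl.spectralNorm_eq, PadicAlgCl.spectralNorm_eq] at h3
    exact h3.symm

include hα in
/-- some slope is positive -/
theorem exists_vv_eq_one (φ₀ : E →ₐ[ℚ] L) : ∃ φ : E →ₐ[ℚ] L, vv α e φ = 1 := by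
  have := hα.cm
  by_contra hcon
  push Not at hcon
  have h0 : ∀ φ : E →ₐ[ℚ] L, ‖e (φ α)‖ = 1 := by
    intro φ
    rw [← vv_eq_zero_iff]
    rcases vv_val e φ (α := α) with h | h | h
    · exact absurd h (hcon φ)
    · exact h
    · exact absurd (by rw [vv_odd hα, h, neg_neg]) (hcon (bar φ))
  obtain ⟨r, hr, hroot⟩ := Exact.root_of_unity (φ₀ α) (by
    intro l _ e'
    by_cases hl : l = p
    · subst hl
      obtain ⟨g, hg⟩ := exists_gal e e'
      rw [hg]
      exact (h0 (g • φ₀)).le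
    · exact (norm_eq_one_of_ne hα l hl ((e' : L →+* PadicAlgCl l).comp (φ₀ : E →+* L))).le) (by
    intro ψ
    exact hα.unitary ((ψ : L →+* ℂ).comp (φ₀ : E →+* L)))
  have h1 : α ^ r = 1 := by
    apply φ₀.toRingHom.injective
    change φ₀ (α ^ r) = φ₀ 1
    rw [map_pow, hroot, map_one]
  have h3 := hα.powers r hr
  rw [h1] at h3
  have h4 : (⊥ : IntermediateField ℚ E) = ⊤ := by
    rw [← h3]
    symm
    rw [IntermediateField.adjoin_simple_eq_bot_iff]
    exact one_mem _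
  have h5 : Module.finrank ℚ E = 1 := by
    rw [← IntermediateField.finrank_top', ← h4, IntermediateField.finrank_bot]
  have h6 : IsTotallyComplex E := inferInstance
  have h7 := IsTotallyComplex.finrank E
  omega

include hα in
/-- there is one absolute value -/
theorem exists_abs [IsCMField E] (φ₀ : E →ₐ[ℚ] L) : ∃ P : ℝ, 1 < P ∧
    ∀ φ : E →ₐ[ℚ] L, ‖e (φ α)‖ = P ^ (vv α e φ) := by
  obtain ⟨φ₁, h1⟩ := exists_vv_eq_one hα e φ₀
  have key : ∀ φ : E →ₐ[ℚ] L, vv α e φ = 1 → ‖e (φ α)‖ = ‖e (φ₁ α)‖ := by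
    intro φ h
    obtain ⟨δ, hδ, hδn⟩ := exists_place hα e φ₁ φ h1 h
    rw [← hδ, smul_apply, hδn]
  refine ⟨‖e (φ₁ α)‖, (vv_eq_one_iff e φ₁).1 h1, fun φ => ?_⟩
  rcases vv_val e φ (α := α) with h | h | h
  · rw [h, zpow_one, key φ h]
  · rw [h, zpow_zero, (vv_eq_zero_iff e φ).1 h]
  · rw [h, zpow_neg, zpow_one]
    have h2 := key (bar φ) (by rw [vv_odd hα, h, neg_neg])
    rw [norm_bar hα] at h2
    rw [← h2, inv_inv]

instance finE : Fintype (E →ₐ[ℚ] L) := minpoly.AlgHom.fintype ℚ E L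

include hα in
/-- the embeddings form a signed set -/
theorem sgn_embeddings [IsCMField E] (φ₀ : E →ₐ[ℚ] L) :
    Sgn (L ≃ₐ[ℚ] L) (X := E →ₐ[ℚ] L) bar (vv α e) where
  cc := bar_bar
  cg := bar_smul
  odd := vv_odd hα e
  val := vv_val e
  trans := exists_smul_eq
  place := by
    intro φ ψ h1 h2
    obtain ⟨δ, hδ, hδn⟩ := exists_place hα e φ ψ h1 h2
    refine ⟨δ, hδ, fun z => ?_⟩
    unfold vv
    rw [smul_apply, hδn]
  sep := by
    intro φ ψ h
    obtain ⟨P, hP, hPn⟩ := exists_abs hα e φ₀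
    have hφ0 : φ α ≠ 0 := (map_ne_zero φ).2 (alpha_ne hα)
    have hψ0 : ψ α ≠ 0 := (map_ne_zero ψ).2 (alpha_ne hα)
    obtain ⟨r, hr, hroot⟩ := Exact.root_of_unity (φ α / ψ α) (by
      intro l _ e'
      by_cases hl : l = p
      · subst hl
        obtain ⟨g, hg⟩ := exists_gal e e'
        rw [hg, map_div₀, map_div₀, norm_div]
        have h1 := hPn (g • φ)
        have h2 := hPn (g • ψ)
        rw [smul_apply] at h1 h2
        rw [h1, h2, h g, div_self]
        exact zpow_ne_zero _ (by linarith)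
      · rw [map_div₀, norm_div]
        have h1 := norm_eq_one_of_ne hα l hl ((e' : L →+* PadicAlgCl l).comp (φ : E →+* L))
        have h2 := norm_eq_one_of_ne hα l hl ((e' : L →+* PadicAlgCl l).comp (ψ : E →+* L))
        change ‖e' (φ α)‖ = 1 at h1
        change ‖e' (ψ α)‖ = 1 at h2
        rw [h1, h2, div_one]) (by
      intro χ
      have h1 := hα.unitary ((χ : L →+* ℂ).comp (φ : E →+* L))
      have h2 := hα.unitary ((χ : L →+* ℂ).comp (ψ : E →+* L))
      change ‖χ (φ α)‖ = 1 at h1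
      change ‖χ (ψ α)‖ = 1 at h2
      rw [map_div₀, norm_div, h1, h2, div_one])
    rw [div_pow, div_eq_one_iff_eq (pow_ne_zero r hψ0), ← map_pow, ← map_pow] at hroot
    exact hom_ext_gen (hα.powers r hr) hroot
  ex := exists_vv_eq_one hα e φ₀

end

end

end Pool.Agent.W517.K3
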