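import Mathlib
import Pool.Agent.W517.K3.Gal

/-!
# The field of a class of embeddings
-/

set_option autoImplicit false
set_option linter.unusedSectionVars false

namespace Pool.Agent.W517.K3

open NumberField

noncomputable section

section cls

variable {G X : Type*} [Group G] [MulAction G X] [Fintype X] {c : X → X} {v : X → ℤ}

theorem cls_refl (x : X) : x ∈ cls G c v x := fun _ _ => rfl

theorem cls_symm {x y : X} (h : y ∈ cls G c v x) : x ∈ cls G c v y := fun n hn => (h n hn).symm

theorem cls_trans {x y z : X} (h : y ∈ cls G c v x) (h' : z ∈ cls G c v y) : z ∈ cls G c v x :=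
  fun n hn => (h n hn).trans (h' n hn)

theorem cls_smul (hS : Sgn G c v) (g : G) {x y : X} (h : y ∈ cls G c v x) :
    g • y ∈ cls G c v (g • x) := fun _ hn => h _ (hn.translate hS g)

theorem cls_bar {x y : X} (h : y ∈ cls G c v x) : c y ∈ cls G c v (c x) := by
  intro n hn
  rw [hn.1, hn.1, h n hn]

theorem bar_not_mem (hS : Sgn G c v) {n₀ : X → ℤ} (h₀ : Rel G c v n₀) (hn₀ : n₀ ≠ fun _ => 0)
    (x : X) : c x ∉ cls G c v x := by
  intro h
  apply hn₀
  refine zero_of_orbit hS x fun g => ?_
  have h1 := h _ (h₀.translate hS g)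
  rw [← hS.cg, h₀.1] at h1
  omega

end cls

variable {p a : ℕ} [Fact p.Prime] {E : Type} [Field E] [NumberField E] [IsCMField E] {α : E}
  {L : Type} [Field L] [Algebra ℚ L] [FiniteDimensional ℚ L] [IsGalois ℚ L]
  (e : L →ₐ[ℚ] PadicAlgCl p)

/-- the class of an embedding -/
abbrev ecls (α : E) (e : L →ₐ[ℚ] PadicAlgCl p) (φ : E →ₐ[ℚ] L) : Set (E →ₐ[ℚ] L) :=
  cls (L ≃ₐ[ℚ] L) bar (vv α e) φ

/-- the subfield on which equivalent embeddings agree -/
def fld (α : E) (e : L →ₐ[ℚ] PadicAlgCl p) : IntermediateField ℚ E where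
  carrier := {x | ∀ φ ψ : E →ₐ[ℚ] L, ψ ∈ ecls α e φ → φ x = ψ x}
  mul_mem' := by
    intro x y hx hy φ ψ h
    rw [map_mul, map_mul, hx φ ψ h, hy φ ψ h]
  add_mem' := by
    intro x y hx hy φ ψ h
    rw [map_add, map_add, hx φ ψ h, hy φ ψ h]
  algebraMap_mem' := by
    intro r φ ψ _
    rw [AlgHom.commutes, AlgHom.commutes]
  inv_mem' := by
    intro x hx φ ψ h
    rw [map_inv₀, map_inv₀, hx φ ψ h]

theorem mem_fld {x : E} : x ∈ fld α e ↔ ∀ φ ψ : E →ₐ[ℚ] L, ψ ∈ ecls α e φ → φ x = ψ x := Iff.rfl

variable (hα : IsK3Frobenius p a α)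

include hα in
/-- the fibres of the restriction to the subfield are the classes -/
theorem fibre_iff (φ ψ : E →ₐ[ℚ] L) : (∀ x ∈ fld α e, φ x = ψ x) ↔ ψ ∈ ecls α e φ := by
  have hS := sgn_embeddings hα e φ
  constructor
  · intro h
    let H' : Subgroup (L ≃ₐ[ℚ] L) :=
      { carrier := {g | g • φ ∈ ecls α e φ}
        mul_mem' := by
          intro g h hg hh
          have h1 := cls_smul hS g hh
          change (g * h) • φ ∈ ecls α e φ
          rw [mul_smul]
          exact cls_trans hg h1
        one_mem' := by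
          change (1 : L ≃ₐ[ℚ] L) • φ ∈ ecls α e φ
          rw [one_smul]
          exact cls_refl φ
        inv_mem' := by
          intro g hg
          have h1 := cls_smul hS g⁻¹ hg
          rw [inv_smul_smul] at h1
          exact cls_symm h1 }
    have hfix : ∀ y ∈ IntermediateField.fixedField H', ∃ x ∈ fld α e, φ x = y := by
      intro y hy
      have hy1 : y ∈ φ.fieldRange := by
        rw [← IsGalois.fixedField_fixingSubgroup φ.fieldRange, IntermediateField.mem_fixedField_iff]
        intro g hg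
        rw [IntermediateField.mem_fixedField_iff] at hy
        apply hy
        change g • φ ∈ ecls α e φ
        have h1 : g • φ = φ := by
          ext x
          rw [smul_apply]
          exact (IntermediateField.mem_fixingSubgroup_iff _ _).1 hg _ ⟨x, rfl⟩
        rw [h1]
        exact cls_refl φ
      obtain ⟨x, rfl⟩ := hy1
      refine ⟨x, ?_, rfl⟩
      rw [mem_fld]
      intro ψ₁ ψ₂ h12
      obtain ⟨g1, rfl⟩ := exists_smul_eq φ ψ₁
      obtain ⟨g2, rfl⟩ := exists_smul_eq φ ψ₂
      have h2 : (g1⁻¹ * g2) • φ ∈ ecls α e φ := by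
        have h3 := cls_smul hS g1⁻¹ h12
        rwa [inv_smul_smul, ← mul_smul] at h3
      rw [IntermediateField.mem_fixedField_iff] at hy
      have h3 := hy _ h2
      change (g1⁻¹ * g2) (φ x) = φ x at h3
      rw [smul_apply, smul_apply]
      have h4 := congrArg g1 h3
      rw [AlgEquiv.mul_apply] at h4
      have h5 : g1 (g1⁻¹ (g2 (φ x))) = g2 (φ x) := AlgEquiv.apply_symm_apply g1 _
      rw [h5] at h4
      exact h4.symm
    obtain ⟨g, rfl⟩ := exists_smul_eq φ ψ
    have hg : g ∈ (IntermediateField.fixedField H').fixingSubgroup := by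
      rw [IntermediateField.mem_fixingSubgroup_iff]
      intro y hy
      obtain ⟨x, hx, rfl⟩ := hfix y hy
      exact (h x hx).symm
    rw [IntermediateField.fixingSubgroup_fixedField] at hg
    exact hg
  · intro h x hx
    exact hx φ ψ h

theorem conj_mem_fld {x : E} (hx : x ∈ fld α e) : IsCMField.complexConj E x ∈ fld α e := by
  intro φ ψ h
  exact hx (bar φ) (bar ψ) (cls_bar h)

variable {n₀ : (E →ₐ[ℚ] L) → ℤ} (h₀ : Rel (L ≃ₐ[ℚ] L) bar (vv α e) n₀) (hn₀ : n₀ ≠ fun _ => 0)

include hα h₀ hn₀ in
theorem exists_conj_ne (φ : E →ₐ[ℚ] L) : ∃ x ∈ fld α e, IsCMField.complexConj E x ≠ x := by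
  by_contra hcon
  push Not at hcon
  apply bar_not_mem (sgn_embeddings hα e φ) h₀ hn₀ φ
  rw [← fibre_iff e hα]
  intro x hx
  rw [bar_apply, hcon x hx]

include hα h₀ hn₀ in
/-- the subfield is a CM field -/
theorem isCM_fld (φ : E →ₐ[ℚ] L) : IsCMField (fld α e) := by
  let K := fld α e
  have hKint : Algebra.IsAlgebraic K E := inferInstance
  -- conjugation on `K`
  let s : K →ₐ[ℚ] K := RingHom.toRatAlgHom
    { toFun := fun x => ⟨IsCMField.complexConj E x.1, conj_mem_fld e x.2⟩
      map_one' := by
        apply Subtype.ext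
        change IsCMField.complexConj E 1 = 1
        rw [map_one]
      map_mul' := by
        intro x y
        apply Subtype.ext
        change IsCMField.complexConj E (x.1 * y.1) = _
        rw [map_mul]
        rfl
      map_zero' := by
        apply Subtype.ext
        change IsCMField.complexConj E 0 = 0
        rw [map_zero]
      map_add' := by
        intro x y
        apply Subtype.ext
        change IsCMField.complexConj E (x.1 + y.1) = _
        rw [map_add]
        rfl }
  have hs : ∀ x : K, ((s x : K) : E) = IsCMField.complexConj E x.1 := fun x => rfl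
  have hss : ∀ x, s (s x) = x := by
    intro x
    apply Subtype.ext
    rw [hs, hs, IsCMField.complexConj_apply_apply]
  let σ : K ≃ₐ[ℚ] K := AlgEquiv.ofAlgHom s s (by ext x; exact congrArg _ (hss x))
    (by ext x; exact congrArg _ (hss x))
  have hσ : ∀ x : K, σ x = s x := fun x => rfl
  have hσ2 : σ * σ = 1 := by
    ext x
    rw [AlgEquiv.mul_apply, hσ, hσ, hss]
    rfl
  have hσ1 : σ ≠ 1 := by
    intro h
    obtain ⟨x, hx, hne⟩ := exists_conj_ne e hα h₀ hn₀ φ
    apply hne
    have h1 := AlgEquiv.congr_fun h ⟨x, hx⟩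
    rw [hσ] at h1
    exact congrArg Subtype.val h1
  have hemb : ∀ (ψ : K →+* ℂ) (x : K), ψ (σ x) = (starRingEnd ℂ) (ψ x) := by
    intro ψ x
    let Ψ : E →+* ℂ := ComplexEmbedding.lift E ψ
    have h1 : ∀ y : K, Ψ y.1 = ψ y := fun y =>
      RingHom.congr_fun (ComplexEmbedding.lift_comp_algebraMap E ψ) y
    rw [← h1, hσ, hs, IsCMField.complexEmbedding_complexConj, h1]
  have hord : orderOf σ = 2 := orderOf_eq_prime (by rw [pow_two, hσ2]) hσ1
  let F : IntermediateField ℚ K := IntermediateField.fixedField (Subgroup.zpowers σ)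
  have hfin : Module.finrank F K = 2 := by
    rw [IntermediateField.finrank_fixedField_eq_card, Nat.card_zpowers, hord]
  have hF : ∀ y : F, σ y.1 = y.1 := by
    intro y
    exact (IntermediateField.mem_fixedField_iff _ _).1 y.2 σ (Subgroup.mem_zpowers σ)
  have htc : IsTotallyComplex K := by
    refine ⟨fun w => ?_⟩
    rw [← InfinitePlace.mk_embedding w, InfinitePlace.isComplex_mk_iff]
    intro hreal
    apply hσ1
    refine AlgEquiv.ext fun x => ?_
    apply w.embedding.injective
    rw [hemb]
    exact RingHom.congr_fun hreal x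
  have htr : IsTotallyReal F := by
    refine ⟨fun w => ?_⟩
    rw [← InfinitePlace.mk_embedding w, InfinitePlace.isReal_mk_iff]
    let ψ : K →+* ℂ := ComplexEmbedding.lift K w.embedding
    have h1 : ∀ y : F, ψ y.1 = w.embedding y := fun y =>
      RingHom.congr_fun (ComplexEmbedding.lift_comp_algebraMap K w.embedding) y
    rw [ComplexEmbedding.isReal_iff]
    ext y
    rw [ComplexEmbedding.conjugate_coe_eq, ← h1, ← hemb, hF]
  have hquad : Algebra.IsQuadraticExtension F K := ⟨hfin⟩
  exact IsCMField.ofCMExtension F K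

include hα in
/-- the subfield is proper -/
theorem fld_ne_top (φ : E →ₐ[ℚ] L)
    (hcs : ∀ ψ : E →ₐ[ℚ] L, csum (L ≃ₐ[ℚ] L) bar (vv α e) ψ = 0) : fld α e ≠ ⊤ := by
  classical
  intro htop
  obtain ⟨ψ, hψ⟩ := exists_vv_eq_one hα e φ
  have h1 := hcs ψ
  unfold csum at h1
  have h2 : (Finset.univ.filter fun y => y ∈ ecls α e ψ) = {ψ} := by
    ext χ
    simp only [Finset.mem_filter, Finset.mem_univ, true_and, Finset.mem_singleton]
    constructor
    · intro h
      rw [← fibre_iff e hα] at h
      ext x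
      exact (h x (by rw [htop]; exact IntermediateField.mem_top)).symm
    · rintro rfl
      exact cls_refl _
  rw [h2, Finset.sum_singleton, hψ] at h1
  exact one_ne_zero h1

end

end Pool.Agent.W517.K3
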