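import Mathlib

/-!
# A partition lemma
-/

set_option autoImplicit false
set_option linter.unusedSectionVars false

namespace Pool.Agent.W517.K3

open Finset

section

variable {ι Y : Type*} [DecidableEq ι] [Fintype Y] [DecidableEq Y] (c : Y → Y)

/-- excess of the multiplicity of `x` over that of `c x` -/
def excess (φ : ι → Option Y) (A : Finset ι) (x : Y) : ℤ :=
  ((A.filter fun i => φ i = some x).card : ℤ) - ((A.filter fun i => φ i = some (c x)).card : ℤ)

theorem card_sdiff_filter {A B : Finset ι} (hB : B ⊆ A) (p : ι → Prop) [DecidablePred p] :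
    (((A \ B).filter p).card : ℤ) = (A.filter p).card - (B.filter p).card := by
  have h1 : (A \ B).filter p = A.filter p \ B.filter p := by
    ext i
    simp only [mem_filter, mem_sdiff]
    tauto
  rw [h1, Finset.card_sdiff_of_subset (Finset.filter_subset_filter p hB)]
  rw [Nat.cast_sub (Finset.card_le_card (Finset.filter_subset_filter p hB))]

theorem excess_sdiff (φ : ι → Option Y) {A B : Finset ι} (hB : B ⊆ A) (x : Y) :
    excess c φ (A \ B) x = excess c φ A x - excess c φ B x := by
  unfold excess
  rw [card_sdiff_filter hB, card_sdiff_filter hB]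
  ring

/-- the three kinds of blocks -/
def IsBlock (r : Y → Y → Prop) (φ : ι → Option Y) (N : Y → ℤ) (B : Finset ι) : Prop :=
  (∃ i, B = {i} ∧ φ i = none) ∨
  (∃ i j x, i ≠ j ∧ B = {i, j} ∧ φ i = some x ∧ φ j = some (c x)) ∨
  (∃ x, N x ≠ 0 ∧ (∀ i ∈ B, ∃ y, r x y ∧ φ i = some y) ∧
    ∀ y, r x y → ∃! i, i ∈ B ∧ φ i = some y)

theorem exists_partition (hcc : ∀ x, c (c x) = x) (hcne : ∀ x, c x ≠ x) (r : Y → Y → Prop)
    (hr : Equivalence r) (hrc : ∀ x y, r x y → r (c x) (c y))
    (φ : ι → Option Y) : ∀ (k : ℕ) (A : Finset ι), A.card = k →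
    (∀ x y, r x y → excess c φ A x = excess c φ A y) →
    ∃ P : Finpartition A, ∀ B ∈ P.parts, IsBlock c r φ (excess c φ A) B := by
  classical
  intro k
  induction k using Nat.strong_induction_on with
  | _ k ih =>
  intro A hA hex
  by_cases hA0 : A = ∅
  · subst hA0
    refine ⟨⊥, ?_⟩
    intro B hB
    simp at hB
  -- general step: remove a block
  have step : ∀ B : Finset ι, B ⊆ A → B ≠ ∅ → IsBlock c r φ (excess c φ A) B →
      (∀ x y, r x y → excess c φ B x = excess c φ B y) →
      (∀ x, excess c φ (A \ B) x ≠ 0 → excess c φ A x ≠ 0) →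
      ∃ P : Finpartition A, ∀ B ∈ P.parts, IsBlock c r φ (excess c φ A) B := by
    intro B hB hB0 hblock hexB hex0
    obtain ⟨P, hP⟩ := ih (A \ B).card (by
      rw [← hA]
      exact Finset.card_lt_card (Finset.sdiff_ssubset hB (Finset.nonempty_iff_ne_empty.2 hB0)))
      (A \ B) rfl (by
      intro x y hxy
      rw [excess_sdiff c φ hB, excess_sdiff c φ hB, hex x y hxy, hexB x y hxy])
    refine ⟨P.extend (b := B) (c := A) hB0 Finset.sdiff_disjoint (Finset.sdiff_union_of_subset hB),
      ?_⟩
    intro B' hB'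
    rw [Finpartition.extend_parts, Finset.mem_insert] at hB'
    rcases hB' with rfl | hB'
    · exact hblock
    · rcases hP B' hB' with h | h | ⟨x, h1, h2⟩
      · exact Or.inl h
      · exact Or.inr (Or.inl h)
      · exact Or.inr (Or.inr ⟨x, hex0 x h1, h2⟩)
  by_cases h1 : ∃ i ∈ A, φ i = none
  · obtain ⟨i, hi, hφ⟩ := h1
    have hB : ∀ x, excess c φ {i} x = 0 := by
      intro x
      unfold excess
      have e1 : ({i} : Finset ι).filter (fun j => φ j = some x) = ∅ := by
        rw [Finset.filter_singleton]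
        simp [hφ]
      have e2 : ({i} : Finset ι).filter (fun j => φ j = some (c x)) = ∅ := by
        rw [Finset.filter_singleton]
        simp [hφ]
      rw [e1, e2]
      simp
    refine step {i} (by simpa using hi) (Finset.singleton_ne_empty i) (Or.inl ⟨i, rfl, hφ⟩) ?_ ?_
    · intro x y _
      rw [hB, hB]
    · intro x hx
      rw [excess_sdiff c φ (by simpa using hi), hB, sub_zero] at hx
      exact hx
  by_cases h2 : ∃ i ∈ A, ∃ j ∈ A, ∃ x, φ i = some x ∧ φ j = some (c x)
  · obtain ⟨i, hi, j, hj, x, hix, hjx⟩ := h2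
    have hij : i ≠ j := by
      rintro rfl
      rw [hix] at hjx
      exact hcne x (Option.some.inj hjx).symm
    have hsub : ({i, j} : Finset ι) ⊆ A := by
      intro k hk
      rcases Finset.mem_insert.1 hk with rfl | hk
      · exact hi
      · rw [Finset.mem_singleton.1 hk]
        exact hj
    have hcount : ∀ y, (({i, j} : Finset ι).filter (fun k => φ k = some y)).card =
        (if x = y then 1 else 0) + (if c x = y then 1 else 0) := by
      intro y
      rw [Finset.filter_insert, Finset.filter_singleton, hix, hjx]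
      by_cases e1 : x = y <;> by_cases e2 : c x = y
      · exact absurd (e2.trans e1.symm) (hcne x)
      · subst e1
        simp [hcne x]
      · simp [e1, e2]
      · simp [e1, e2]
    have hB : ∀ y, excess c φ {i, j} y = 0 := by
      intro y
      unfold excess
      rw [hcount, hcount]
      have e1 : (x = c y) ↔ (c x = y) := by
        constructor
        · intro h
          rw [h, hcc]
        · intro h
          rw [← h, hcc]
      have e2 : (c x = c y) ↔ (x = y) := by
        constructor
        · intro h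
          rw [← hcc x, h, hcc]
        · intro h
          rw [h]
      simp only [e1, e2]
      push_cast
      ring
    refine step {i, j} hsub (Finset.insert_ne_empty _ _)
      (Or.inr (Or.inl ⟨i, j, x, hij, rfl, hix, hjx⟩)) ?_ ?_
    · intro x y _
      rw [hB, hB]
    · intro y hy
      rw [excess_sdiff c φ hsub, hB, sub_zero] at hy
      exact hy
  -- now take a class
  obtain ⟨i₀, hi₀⟩ := Finset.nonempty_iff_ne_empty.2 hA0
  obtain ⟨x₀, hx₀⟩ : ∃ x, φ i₀ = some x := by
    rcases h : φ i₀ with _ | x
    · exact absurd ⟨i₀, hi₀, h⟩ h1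
    · exact ⟨x, rfl⟩
  have hpos : 0 < excess c φ A x₀ := by
    unfold excess
    have e1 : 0 < (A.filter fun i => φ i = some x₀).card :=
      Finset.card_pos.2 ⟨i₀, by simp [hi₀, hx₀]⟩
    have e2 : (A.filter fun i => φ i = some (c x₀)) = ∅ := by
      rw [Finset.filter_eq_empty_iff]
      intro j hj hcon
      exact h2 ⟨i₀, hi₀, j, hj, x₀, hx₀, hcon⟩
    rw [e2]
    simp only [Finset.card_empty]
    omega
  have hchoose : ∀ y : Y, ∃ i, r x₀ y → i ∈ A ∧ φ i = some y := by
    intro y
    by_cases hy : r x₀ y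
    · have e1 : 0 < excess c φ A y := by
        rw [← hex x₀ y hy]
        exact hpos
      unfold excess at e1
      have e2 : 0 < (A.filter fun i => φ i = some y).card := by omega
      obtain ⟨i, hi⟩ := Finset.card_pos.1 e2
      exact ⟨i, fun _ => Finset.mem_filter.1 hi⟩
    · exact ⟨i₀, fun h => absurd h hy⟩
  choose w hw using hchoose
  set B : Finset ι := (univ.filter fun y => r x₀ y).image w with hBdef
  have hmemB : ∀ i, i ∈ B ↔ ∃ y, r x₀ y ∧ w y = i := by
    intro i
    rw [hBdef, Finset.mem_image]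
    constructor
    · rintro ⟨y, hy, rfl⟩
      exact ⟨y, (Finset.mem_filter.1 hy).2, rfl⟩
    · rintro ⟨y, hy, rfl⟩
      exact ⟨y, by simp [hy], rfl⟩
  have hsub : B ⊆ A := by
    intro i hi
    obtain ⟨y, hy, rfl⟩ := (hmemB i).1 hi
    exact (hw y hy).1
  have hB0 : B ≠ ∅ := by
    apply Finset.nonempty_iff_ne_empty.1
    exact ⟨w x₀, (hmemB _).2 ⟨x₀, hr.refl x₀, rfl⟩⟩
  have huniq : ∀ y, r x₀ y → ∀ i, (i ∈ B ∧ φ i = some y) ↔ i = w y := by
    intro y hy i
    constructor
    · rintro ⟨hi, hφ⟩
      obtain ⟨z, hz, rfl⟩ := (hmemB i).1 hi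
      rw [(hw z hz).2] at hφ
      rw [Option.some.inj hφ]
    · rintro rfl
      exact ⟨(hmemB _).2 ⟨y, hy, rfl⟩, (hw y hy).2⟩
  have hcount : ∀ y, ((B.filter fun i => φ i = some y).card : ℤ) = if r x₀ y then 1 else 0 := by
    intro y
    by_cases hy : r x₀ y
    · rw [if_pos hy]
      have e1 : (B.filter fun i => φ i = some y) = {w y} := by
        ext i
        rw [Finset.mem_filter, huniq y hy, Finset.mem_singleton]
      rw [e1]
      simp
    · rw [if_neg hy]
      have e1 : (B.filter fun i => φ i = some y) = ∅ := by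
        rw [Finset.filter_eq_empty_iff]
        intro i hi hφ
        obtain ⟨z, hz, rfl⟩ := (hmemB i).1 hi
        rw [(hw z hz).2] at hφ
        rw [← Option.some.inj hφ] at hy
        exact hy hz
      rw [e1]
      simp
  have hB : ∀ y, excess c φ B y = (if r x₀ y then 1 else 0) - (if r x₀ (c y) then 1 else 0) := by
    intro y
    unfold excess
    rw [hcount, hcount]
  refine step B hsub hB0 (Or.inr (Or.inr ⟨x₀, hpos.ne', ?_, ?_⟩)) ?_ ?_
  · intro i hi
    obtain ⟨y, hy, rfl⟩ := (hmemB i).1 hi
    exact ⟨y, hy, (hw y hy).2⟩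
  · intro y hy
    exact ⟨w y, (huniq y hy _).2 rfl, fun i hi => (huniq y hy i).1 hi⟩
  · intro x y hxy
    rw [hB, hB]
    have e1 : r x₀ x ↔ r x₀ y :=
      ⟨fun h => hr.trans h hxy, fun h => hr.trans h (hr.symm hxy)⟩
    have e2 : r x₀ (c x) ↔ r x₀ (c y) :=
      ⟨fun h => hr.trans h (hrc _ _ hxy), fun h => hr.trans h (hrc _ _ (hr.symm hxy))⟩
    simp only [e1, e2]
  · intro x hx hcon
    rw [excess_sdiff c φ hsub, hcon, hB] at hx
    by_cases e1 : r x₀ x
    · rw [← hex x₀ x e1] at hcon
      omega
    · by_cases e2 : r x₀ (c x)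
      · have e3 : excess c φ A (c x) = - excess c φ A x := by
          unfold excess
          rw [hcc]
          ring
        rw [← hex x₀ (c x) e2] at e3
        omega
      · simp [e1, e2] at hx

end

end Pool.Agent.W517.K3
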