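import Mathlib
import Pool.Agent.W517.K3.Fld
import Pool.Agent.W517.K3.Part

/-!
# Multiplicative relations and classes
-/

set_option autoImplicit false
set_option linter.unusedSectionVars false

namespace Pool.Agent.W517.K3

open NumberField Pool.Agent.H485R3

noncomputable section

theorem prod_zpow_sum {ι : Type*} (A : Finset ι) (P : ℝ) (hP : P ≠ 0) (k : ι → ℤ) :
    ∏ i ∈ A, P ^ (k i) = P ^ (∑ i ∈ A, k i) := by
  classical
  induction A using Finset.induction_on with
  | empty => simp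
  | insert i A hi ih =>
    rw [Finset.prod_insert hi, Finset.sum_insert hi, zpow_add₀ hP, ih]

theorem sum_count {ι Y : Type*} [Fintype Y] [DecidableEq Y] (A : Finset ι) (φ : ι → Option Y)
    (F : Y → ℤ) : ∑ x, ((A.filter fun i => φ i = some x).card : ℤ) * F x =
      ∑ i ∈ A, (φ i).elim 0 F := by
  classical
  have h1 : ∀ x, ((A.filter fun i => φ i = some x).card : ℤ) * F x =
      ∑ i ∈ A, if φ i = some x then F x else 0 := by
    intro x
    rw [← Finset.sum_filter, Finset.sum_const, nsmul_eq_mul]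
  rw [Finset.sum_congr rfl fun x _ => h1 x, Finset.sum_comm]
  refine Finset.sum_congr rfl fun i _ => ?_
  rcases h : φ i with _ | y
  · simp
  · simp only [Option.some.injEq, Option.elim_some]
    rw [Finset.sum_ite_eq]
    simp

variable {p a : ℕ} [Fact p.Prime] {E : Type} [Field E] [NumberField E] [IsCMField E] {α : E}
  {L : Type} [Field L] [Algebra ℚ L] [FiniteDimensional ℚ L] [IsGalois ℚ L]
  (e : L →ₐ[ℚ] PadicAlgCl p) (hα : IsK3Frobenius p a α)

/-- the value of a label -/
def optv (α : E) (φ : Option (E →ₐ[ℚ] L)) : L := φ.elim 1 fun x => x α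

include hα in
/-- a torsion product of conjugates has total slope zero -/
theorem sum_vv_zero (φ₀ : E →ₐ[ℚ] L) {ι : Type*} (A : Finset ι) (φ : ι → Option (E →ₐ[ℚ] L))
    (s : ℕ) (hs : 0 < s) (h : (∏ i ∈ A, optv α (φ i)) ^ s = 1) (g : L ≃ₐ[ℚ] L) :
    ∑ i ∈ A, (φ i).elim 0 (fun x => vv α e (g • x)) = 0 := by
  obtain ⟨P, hP, hPn⟩ := exists_abs hα e φ₀
  have h1 : ‖e (g (∏ i ∈ A, optv α (φ i)))‖ = 1 := by
    have h2 := congrArg (fun z => ‖e (g z)‖) h
    simp only [map_pow, norm_pow, map_one, norm_one] at h2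
    exact (pow_eq_one_iff_of_nonneg (norm_nonneg _) hs.ne').1 h2
  rw [map_prod, map_prod, norm_prod] at h1
  have h3 : ∀ i ∈ A, ‖e (g (optv α (φ i)))‖ =
      P ^ ((φ i).elim 0 (fun x => vv α e (g • x))) := by
    intro i _
    rcases φ i with _ | x
    · simp [optv]
    · exact hPn (g • x)
  rw [Finset.prod_congr rfl h3, prod_zpow_sum A P (by linarith)] at h1
  exact (zpow_eq_one_iff_right₀ (by linarith) (by linarith)).1 h1

include hα in
/-- torsion products give relations -/
theorem rel_of_torsion (φ₀ : E →ₐ[ℚ] L) {ι : Type*} [DecidableEq (E →ₐ[ℚ] L)] (A : Finset ι)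
    (φ : ι → Option (E →ₐ[ℚ] L))
    (s : ℕ) (hs : 0 < s) (h : (∏ i ∈ A, optv α (φ i)) ^ s = 1) :
    Rel (L ≃ₐ[ℚ] L) bar (vv α e) (excess bar φ A) := by
  have hS := sgn_embeddings hα e φ₀
  refine ⟨?_, ?_⟩
  · intro x
    unfold excess
    rw [bar_bar]
    ring
  · intro g
    have h1 := sum_vv_zero e hα φ₀ A φ s hs h g
    have h2 : ∀ x, excess bar φ A x * vv α e (g • x) =
        ((A.filter fun i => φ i = some x).card : ℤ) * vv α e (g • x) +
        ((A.filter fun i => φ i = some (bar x)).card : ℤ) * vv α e (g • bar x) := by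
      intro x
      unfold excess
      rw [← hS.cg, hS.odd]
      ring
    rw [Finset.sum_congr rfl fun x _ => h2 x, Finset.sum_add_distrib,
      sum_count A φ (fun x => vv α e (g • x))]
    have h3 : ∑ x, ((A.filter fun i => φ i = some (bar x)).card : ℤ) * vv α e (g • bar x) =
        ∑ x, ((A.filter fun i => φ i = some x).card : ℤ) * vv α e (g • x) :=
      Fintype.sum_equiv ⟨bar, bar, bar_bar, bar_bar⟩ _ _ fun x => rfl
    rw [h3, sum_count A φ (fun x => vv α e (g • x)), h1, add_zero]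

open Classical in
include hα in
/-- the product over a class is torsion -/
theorem torsion_of_csum (φ₀ : E →ₐ[ℚ] L)
    (hcs : ∀ ψ : E →ₐ[ℚ] L, csum (L ≃ₐ[ℚ] L) bar (vv α e) ψ = 0) :
    ∃ r : ℕ, 0 < r ∧ (∏ ψ ∈ Finset.univ.filter (fun y => y ∈ ecls α e φ₀), ψ α) ^ r = 1 := by
  have hS := sgn_embeddings hα e φ₀
  obtain ⟨P, hP, hPn⟩ := exists_abs hα e φ₀
  refine Exact.root_of_unity _ ?_ ?_
  · intro l _ e'
    by_cases hl : l = p
    · subst hl
      obtain ⟨g, hg⟩ := exists_gal e e'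
      rw [hg, map_prod, map_prod, norm_prod]
      have h3 : ∀ ψ : E →ₐ[ℚ] L, ‖e (g (ψ α))‖ = P ^ (vv α e (g • ψ)) := fun ψ => hPn (g • ψ)
      rw [Finset.prod_congr rfl fun ψ _ => h3 ψ, prod_zpow_sum _ P (by linarith)]
      have h4 : ∑ ψ ∈ Finset.univ.filter (fun y => y ∈ ecls α e φ₀), vv α e (g • ψ) =
          csum (L ≃ₐ[ℚ] L) bar (vv α e) (g • φ₀) := by
        unfold csum
        refine Finset.sum_bij (fun ψ _ => g • ψ) ?_ ?_ ?_ ?_
        · intro ψ hψ
          rw [Finset.mem_filter] at hψ ⊢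
          exact ⟨Finset.mem_univ _, cls_smul hS g hψ.2⟩
        · intro ψ _ χ _ h
          exact smul_left_cancel g h
        · intro ψ hψ
          rw [Finset.mem_filter] at hψ
          refine ⟨g⁻¹ • ψ, ?_, smul_inv_smul g ψ⟩
          rw [Finset.mem_filter]
          refine ⟨Finset.mem_univ _, ?_⟩
          have h5 := cls_smul hS g⁻¹ hψ.2
          rwa [inv_smul_smul] at h5
        · intro ψ _
          rfl
      rw [h4, hcs, zpow_zero]
    · rw [map_prod, norm_prod]
      refine (Finset.prod_eq_one fun ψ _ => ?_).le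
      exact norm_eq_one_of_ne hα l hl ((e' : L →+* PadicAlgCl l).comp (ψ : E →+* L))
  · intro χ
    rw [map_prod, norm_prod]
    refine Finset.prod_eq_one fun ψ _ => ?_
    exact hα.unitary ((χ : L →+* ℂ).comp (ψ : E →+* L))

end

end Pool.Agent.W517.K3
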