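import Mathlib
import Pool.Agent.W517.K3.RelFin
import Pool.Agent.W517.K3.Expand

/-!
# Tate forms are generated by linear, bilinear and norm forms
-/

set_option autoImplicit false
set_option linter.unusedSectionVars false

namespace Pool.Agent.W517.K3

open NumberField Module Pool.Agent.H485R3

noncomputable section

/-- products over a block -/
theorem prod_block {Ω : Type} [Field Ω] {n : ℕ} (P : Finpartition (Finset.univ : Finset (Fin n)))
    (f : Fin n → Ω) : ∏ i, f i = ∏ B ∈ P.parts, ∏ i : B, f i := by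
  classical
  have h1 : ∏ i, f i = ∏ i ∈ P.parts.biUnion id, f i := by rw [P.biUnion_parts]
  rw [h1, Finset.prod_biUnion]
  · refine Finset.prod_congr rfl fun B _ => ?_
    exact (Finset.prod_coe_sort B f).symm
  · intro B hB B' hB' hne
    exact P.disjoint hB hB' hne

section

variable {p a : ℕ} [Fact p.Prime] {E : Type} [Field E] [NumberField E] {α : E}
  (hα : IsK3Frobenius p a α) {Ω : Type} [Field Ω] [IsAlgClosed Ω] [CharZero Ω]
  {H : Type} [AddCommGroup H] [Module Ω H] (F : H →ₗ[Ω] H)

include hα in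
theorem product_mem {d : ℕ} (hd : finrank ℚ E = 2 * d)
    (hcase : localDegree p α ≤ 2 ∨ d.Prime ∨ d = 4 ∨
      (Odd (localDegree p α) ∧ ∃ k, d = 2 ^ k) ∨
      ((localDegree p α).Prime ∧ d < 2 * localDegree p α))
    {n : ℕ} (ψ : MultilinearMap Ω (fun _ : Fin n => H) Ω) (hψ : IsEigenProduct F α ψ) :
    IsProductOfBasicForms α F ψ := by
  classical
  have hCM := hα.cm
  obtain ⟨l, μ, hl, hallow, htor, rfl⟩ := hψ
  obtain ⟨L, iF, iA, iFin, iGal, hlift'⟩ := Exact.exists_common' (fun _ : Unit => E)
  have hlift : ∀ {Ω' : Type} [Field Ω'] [Algebra ℚ Ω'] (e : L →ₐ[ℚ] Ω') (σ : E →ₐ[ℚ] Ω'),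
      ∃ σ' : E →ₐ[ℚ] L, e.comp σ' = σ := fun e σ => hlift' e () σ
  let e : L →ₐ[ℚ] PadicAlgCl p := IsAlgClosed.lift
  let f : L →ₐ[ℚ] Ω := IsAlgClosed.lift
  let ε : E →ₐ[ℚ] PadicAlgCl p := IsAlgClosed.lift
  obtain ⟨φ₀, -⟩ := hlift e ε
  have hS := sgn_embeddings hα e φ₀
  have hne : ∀ φ : E →ₐ[ℚ] L, bar φ ≠ φ := c_ne hS
  -- the number of embeddings
  let T : (E →ₐ[ℚ] L) → (E →+* PadicAlgCl p) := fun φ => (e : L →+* PadicAlgCl p).comp (φ : E →+* L)
  have hT : Function.Bijective T := by
    constructor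
    · intro φ φ' h
      ext x
      apply e.toRingHom.injective
      exact RingHom.congr_fun h x
    · intro σ
      obtain ⟨φ, hφ⟩ := hlift e (RingHom.toRatAlgHom σ)
      refine ⟨φ, ?_⟩
      ext x
      exact AlgHom.congr_fun hφ x
  have hcardX : Fintype.card (E →ₐ[ℚ] L) = 2 * d := by
    rw [Fintype.card_of_bijective hT, Embeddings.card, hd]
  have hcardS : (Finset.univ.filter (fun φ : E →ₐ[ℚ] L => vv α e φ = 1)).card =
      localDegree p α := by
    unfold localDegree
    have h1 : Nat.card {φ : E →ₐ[ℚ] L // vv α e φ = 1} =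
        (Finset.univ.filter (fun φ : E →ₐ[ℚ] L => vv α e φ = 1)).card := by
      rw [Nat.card_eq_fintype_card, Fintype.card_subtype]
    rw [← h1]
    refine Nat.card_congr (Equiv.subtypeEquiv (Equiv.ofBijective T hT) fun φ => ?_)
    rw [vv_eq_one_iff]
    rfl
  -- labels
  have hlab : ∀ i, ∃ φ : Option (E →ₐ[ℚ] L), (φ = none ∧ Tor (μ i)) ∨
      ∃ x, φ = some x ∧ f (x α) = μ i := by
    intro i
    rcases hallow i with h | ⟨σ, hσ⟩
    · exact ⟨none, Or.inl ⟨rfl, h⟩⟩
    · obtain ⟨x, hx⟩ := hlift f (RingHom.toRatAlgHom σ)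
      refine ⟨some x, Or.inr ⟨x, rfl, ?_⟩⟩
      rw [← hσ]
      exact AlgHom.congr_fun hx α
  choose lab hlab using hlab
  have hnone : ∀ i, lab i = none → Tor (μ i) := by
    intro i hi
    rcases hlab i with h | ⟨x, h, -⟩
    · exact h.2
    · rw [hi] at h
      exact absurd h (by simp)
  have hsome : ∀ i x, lab i = some x → μ i = f (x α) := by
    intro i x hi
    rcases hlab i with h | ⟨y, h, h'⟩
    · rw [hi] at h
      exact absurd h.1 (by simp)
    · rw [hi] at h
      rw [Option.some.inj h]
      exact h'.symm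
  -- the relation
  have htor' : Tor (∏ i : Fin n, optv α (lab i)) := by
    have h1 : ∀ i, Tor (μ i * (f (optv α (lab i)))⁻¹) := by
      intro i
      rcases h : lab i with _ | x
      · simp only [optv, Option.elim_none, map_one, inv_one, mul_one]
        exact hnone i h
      · simp only [optv, Option.elim_some]
        rw [hsome i x h, mul_inv_cancel₀]
        · exact Tor.one
        · exact (map_ne_zero f).2 ((map_ne_zero x).2 (alpha_ne hα))
    have h2 : Tor (f (∏ i : Fin n, optv α (lab i))) := by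
      have h3 := htor.mul (Tor.prod Finset.univ _ (fun i _ => h1 i)).inv
      have h4 : (∏ i, μ i) * (∏ i, μ i * (f (optv α (lab i)))⁻¹)⁻¹ =
          f (∏ i : Fin n, optv α (lab i)) := by
        have h5 : ∏ i, μ i ≠ 0 := by
          obtain ⟨s, hs, hps⟩ := htor
          intro hz
          rw [hz, zero_pow hs.ne'] at hps
          exact zero_ne_one hps
        rw [Finset.prod_mul_distrib, mul_inv, ← mul_assoc, mul_inv_cancel₀ h5, one_mul,
          Finset.prod_inv_distrib, inv_inv, map_prod]
      rwa [h4] at h3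
    obtain ⟨s, hs, h6⟩ := h2
    refine ⟨s, hs, ?_⟩
    apply f.toRingHom.injective
    change f ((∏ i : Fin n, optv α (lab i)) ^ s) = f 1
    rw [map_pow, h6, map_one]
  obtain ⟨s, hs, hps⟩ := htor'
  have hrel := rel_of_torsion e hα φ₀ Finset.univ lab s hs hps
  set N : (E →ₐ[ℚ] L) → ℤ := excess bar lab (Finset.univ : Finset (Fin n)) with hN
  -- the form attached to a block
  let fB : ∀ B : Finset (Fin n), MultilinearMap Ω (fun _ : B => H) Ω :=
    fun B => prodForm (fun i : B => l i)
  have hfin : ∀ P : Finpartition (Finset.univ : Finset (Fin n)),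
      (∀ B ∈ P.parts, Tor (∏ i : B, μ i) ∧ (B.card ≤ 2 ∨ IsNormForm α F (fB B))) →
      IsProductOfBasicForms α F (prodForm l) := by
    intro P hP
    refine ⟨P, fB, fun B hB => ⟨?_, (hP B hB).2⟩, fun v => ?_⟩
    · exact prodForm_tate F (fun i : B => l i) (fun i : B => μ i) (fun i x => hl i x) (hP B hB).1
    · rw [prodForm_apply, prod_block P]
      refine Finset.prod_congr rfl fun B _ => ?_
      exact (prodForm_apply _ _).symm
  have hsmall : ∀ B : Finset (Fin n), ((∃ i, B = {i} ∧ lab i = none) ∨
      (∃ i j x, i ≠ j ∧ B = {i, j} ∧ lab i = some x ∧ lab j = some (bar x))) →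
      Tor (∏ i : B, μ i) ∧ (B.card ≤ 2 ∨ IsNormForm α F (fB B)) := by
    rintro B (⟨i, rfl, hi⟩ | ⟨i, j, x, hij, rfl, hi, hj⟩)
    · refine ⟨?_, Or.inl (by simp)⟩
      rw [Finset.prod_coe_sort {i} μ, Finset.prod_singleton]
      exact hnone i hi
    · refine ⟨?_, Or.inl (by rw [Finset.card_pair hij])⟩
      rw [Finset.prod_coe_sort {i, j} μ, Finset.prod_pair hij, hsome i x hi, hsome j _ hj,
        ← map_mul, bar_apply, ← map_mul, alpha_mul_conj hα, map_one, map_one]
      exact Tor.one
  by_cases hN0 : N = fun _ => 0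
  · obtain ⟨P, hP⟩ := exists_partition bar bar_bar hne (fun x y : E →ₐ[ℚ] L => x = y)
      ⟨fun _ => rfl, fun h => h.symm, fun h h' => h.trans h'⟩ (fun x y h => by rw [h]) lab n
      (Finset.univ : Finset (Fin n)) (by simp) (fun x y h => by rw [h])
    refine hfin P fun B hB => hsmall B ?_
    rcases hP B hB with h | h | ⟨x, hx, -⟩
    · exact Or.inl h
    · exact Or.inr h
    · exfalso
      apply hx
      rw [← hN, hN0]
  · have hcs : ∀ ψ : E →ₐ[ℚ] L, csum (L ≃ₐ[ℚ] L) bar (vv α e) ψ = 0 :=
      fun ψ => core hS hcardX hcardS hcase hrel hN0 ψ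
    obtain ⟨P, hP⟩ := exists_partition bar bar_bar hne (fun x y : E →ₐ[ℚ] L => y ∈ ecls α e x)
      ⟨fun x => cls_refl x, fun h => cls_symm h, fun h h' => cls_trans h h'⟩
      (fun x y h => cls_bar h) lab n
      (Finset.univ : Finset (Fin n)) (by simp) (fun x y h => h _ hrel)
    refine hfin P fun B hB => ?_
    rcases hP B hB with h | h | ⟨x, hx, hB1, hB2⟩
    · exact hsmall B (Or.inl h)
    · exact hsmall B (Or.inr h)
    · choose ψ hψ using fun i : B => hB1 i.1 i.2
      have hψ1 : ∀ i, ψ i ∈ ecls α e x := fun i => (hψ i).1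
      have hψ2 : ∀ i : B, lab i = some (ψ i) := fun i => (hψ i).2
      have hinj : Function.Injective ψ := by
        intro i j h
        apply Subtype.ext
        obtain ⟨k, -, hk⟩ := hB2 (ψ i) (hψ1 i)
        rw [hk i.1 ⟨i.2, hψ2 i⟩, hk j.1 ⟨j.2, by rw [hψ2 j, h]⟩]
      constructor
      · -- the total eigenvalue is a root of unity
        obtain ⟨r, hr, hroot⟩ := torsion_of_csum e hα x hcs
        have h1 : ∏ i : B, μ i = f (∏ χ ∈ Finset.univ.filter (fun y => y ∈ ecls α e x), χ α) := by
          rw [map_prod]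
          refine Finset.prod_bij (fun i _ => ψ i) ?_ ?_ ?_ ?_
          · intro i _
            rw [Finset.mem_filter]
            exact ⟨Finset.mem_univ _, hψ1 i⟩
          · intro i _ j _ h
            exact hinj h
          · intro χ hχ
            rw [Finset.mem_filter] at hχ
            obtain ⟨k, ⟨hk1, hk2⟩, -⟩ := hB2 χ hχ.2
            refine ⟨⟨k, hk1⟩, Finset.mem_univ _, ?_⟩
            have h2 := hψ2 ⟨k, hk1⟩
            rw [hk2] at h2
            exact (Option.some.inj h2).symm
          · intro i _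
            exact hsome i.1 _ (hψ2 i)
        rw [h1]
        exact ⟨r, hr, by rw [← map_pow, hroot, map_one]⟩
      · right
        let τ : fld α e →+* Ω := ((f : L →+* Ω).comp (x : E →+* L)).comp (algebraMap (fld α e) E)
        let σ : B → (E →+* Ω) := fun i => (f : L →+* Ω).comp (ψ i : E →+* L)
        have hσ : ∀ i, (σ i).comp (algebraMap (fld α e) E) = τ := by
          intro i
          ext z
          change f (ψ i z.1) = f (x z.1)
          rw [((fibre_iff e hα x (ψ i)).2 (hψ1 i)) z.1 z.2]
        let ev : B → {σ : E →+* Ω // σ.comp (algebraMap (fld α e) E) = τ} :=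
          fun i => ⟨σ i, hσ i⟩
        have hev : Function.Bijective ev := by
          constructor
          · intro i j h
            apply hinj
            ext z
            apply f.toRingHom.injective
            exact RingHom.congr_fun (congrArg Subtype.val h) z
          · rintro ⟨ρ, hρ⟩
            obtain ⟨χ, hχ⟩ := hlift f (RingHom.toRatAlgHom ρ)
            have hχ' : ∀ z, f (χ z) = ρ z := fun z => AlgHom.congr_fun hχ z
            have h1 : χ ∈ ecls α e x := by
              rw [← fibre_iff e hα]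
              intro z hz
              apply f.toRingHom.injective
              change f (x z) = f (χ z)
              rw [hχ']
              exact (RingHom.congr_fun hρ ⟨z, hz⟩).symm
            obtain ⟨k, ⟨hk1, hk2⟩, -⟩ := hB2 χ h1
            refine ⟨⟨k, hk1⟩, ?_⟩
            apply Subtype.ext
            have h2 := hψ2 ⟨k, hk1⟩
            rw [hk2] at h2
            change (f : L →+* Ω).comp (ψ ⟨k, hk1⟩ : E →+* L) = ρ
            rw [← Option.some.inj h2]
            ext z
            exact hχ' z
        refine ⟨fld α e, fld_ne_top e hα x hcs, isCM_fld e hα hrel hN0 x, τ,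
          Equiv.ofBijective ev hev, fun i => l i, ?_, fun v => prodForm_apply _ _⟩
        intro i y
        rw [hl i.1 y, hsome i.1 _ (hψ2 i)]
        rfl

end

end

end Pool.Agent.W517.K3
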